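import Pool.Agent.Helper257.KleeBing.Defs

/-! Cell-likeness of the commutator inverse limit compactum. -/

open Set Filter Topology Metric

namespace Pool.KleeBing

/-- data for the commutator compactum -/
structure CellData (V W Z : Type*) [NormedAddCommGroup V] [NormedSpace ℝ V]
    [NormedAddCommGroup W] [NormedSpace ℝ W] [TopologicalSpace Z] where
  G : Set V
  one : V
  comm : ℝ → Z → V → V
  rho : (ℕ → V) → ℝ
  col : Z → W
  hG : IsCompact G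
  hG1 : ∀ x ∈ G, ‖x‖ ≤ 1
  one_mem : one ∈ G
  cont : ContinuousOn (fun p : ℝ × Z × V => comm p.1 p.2.1 p.2.2) (Icc 0 1 ×ˢ univ ×ˢ G)
  maps : ∀ t ∈ Icc (0 : ℝ) 1, ∀ z, ∀ x ∈ G, comm t z x ∈ G
  comm_one : ∀ t ∈ Icc (0 : ℝ) 1, ∀ z, comm t z one = one
  comm_end : ∀ z, ∀ x ∈ G, comm 1 z x = one
  rho_cont : ContinuousOn rho {x | ∀ m, ‖x m‖ ≤ 1}
  rho_mem : ∀ x, (∀ m, ‖x m‖ ≤ 1) → 0 ≤ rho x ∧ rho x ≤ 1
  rho_zero : ∀ x, (∀ m, ‖x m‖ ≤ 1) → (rho x = 0 ↔ x = fun _ => one)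
  col_cont : Continuous col
  col_inj : Function.Injective col
  col_norm : ∀ z, ‖col z‖ ≤ 1

variable {V W Z : Type*} [NormedAddCommGroup V] [NormedSpace ℝ V]
    [NormedAddCommGroup W] [NormedSpace ℝ W] [TopologicalSpace Z]

/-- the compactum -/
def K0 (D : CellData V W Z) : Set (ℕ → V × W) :=
  {c | ∃ z : ℕ → Z, (∀ m, (c m).1 ∈ D.G ∧ (c m).1 = D.comm 0 (z m) (c (m + 1)).1) ∧
    ∀ i, (c i).2 = D.rho (fun m => (c m).1) • D.col (z i)}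

/-- the parametrization of the compactum -/
def Phi (D : CellData V W Z) (p : (ℕ → V) × (ℕ → Z)) : ℕ → V × W :=
  fun i => (p.1 i, D.rho p.1 • D.col (p.2 i))

/-- the relations with index `< n` -/
def RR (D : CellData V W Z) (n : ℕ) : Set ((ℕ → V) × (ℕ → Z)) :=
  {p | (∀ m, ‖p.1 m‖ ≤ 1) ∧ (∀ m ≤ n, p.1 m ∈ D.G) ∧ ∀ m < n, p.1 m = D.comm 0 (p.2 m) (p.1 (m + 1))}

/-- all relations -/
def RInf (D : CellData V W Z) : Set ((ℕ → V) × (ℕ → Z)) :=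
  {p | (∀ m, p.1 m ∈ D.G) ∧ ∀ m, p.1 m = D.comm 0 (p.2 m) (p.1 (m + 1))}

end Pool.KleeBing
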