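import Pool.Agent.Helper257.KleeBing.Defs
import Pool.Agent.Helper257.KleeBing.CellDefs

open Set Filter Topology Metric

namespace Pool.KleeBing


section Main
variable {V W Z : Type*} [NormedAddCommGroup V] [NormedSpace ℝ V] [FiniteDimensional ℝ V]
    [NormedAddCommGroup W] [NormedSpace ℝ W] [FiniteDimensional ℝ W] [TopologicalSpace Z] [CompactSpace Z]

/-! TARGET: prove this theorem (add helper lemmas before it if you like; keep the statement) -/


theorem cell_param (D : CellData V W Z) : K0 D = Phi D '' RInf D ∧ IsCompact (RInf D) ∧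
    ContinuousOn (Phi D) {p | ∀ m, ‖p.1 m‖ ≤ 1} ∧
    ∀ p ∈ RInf D, ∀ q ∈ RInf D, Phi D p = Phi D q → p.1 = q.1 ∧ (p.2 = q.2 ∨ p.1 = fun _ => D.one) := by
  refine ⟨?_, ?_, ?_, ?_⟩
  · ext c
    constructor
    · rintro ⟨z, hz1, hz2⟩
      refine ⟨(fun m => (c m).1, z), ⟨fun m => (hz1 m).1, fun m => (hz1 m).2⟩, ?_⟩
      funext i
      exact Prod.ext rfl (hz2 i).symm
    · rintro ⟨p, ⟨hp1, hp2⟩, rfl⟩
      exact ⟨p.2, fun m => ⟨hp1 m, hp2 m⟩, fun i => rfl⟩
  · have hGc : IsClosed D.G := D.hG.isClosed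
    have hS0c : IsCompact {p : (ℕ → V) × (ℕ → Z) | ∀ m, p.1 m ∈ D.G} := by
      have h1 : IsCompact ((Set.pi univ fun _ : ℕ => D.G) ×ˢ (univ : Set (ℕ → Z))) :=
        (isCompact_univ_pi fun _ => D.hG).prod isCompact_univ
      convert h1 using 1
      ext p
      simp
    have hS0cl : IsClosed {p : (ℕ → V) × (ℕ → Z) | ∀ m, p.1 m ∈ D.G} := by
      rw [Set.ofPred_forall]
      exact isClosed_iInter fun m => hGc.preimage (by fun_prop)
    have hF : ∀ m, ContinuousOn (fun p : (ℕ → V) × (ℕ → Z) =>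
        p.1 m - D.comm 0 (p.2 m) (p.1 (m + 1))) {p | ∀ m, p.1 m ∈ D.G} := by
      intro m
      refine ContinuousOn.sub (by fun_prop) ?_
      have h2 : ContinuousOn (fun p : (ℕ → V) × (ℕ → Z) =>
          ((0 : ℝ), p.2 m, p.1 (m + 1))) {p | ∀ m, p.1 m ∈ D.G} := by fun_prop
      exact D.cont.comp h2 (fun p hp => ⟨⟨le_rfl, zero_le_one⟩, mem_univ _, hp _⟩)
    have hC : ∀ m, IsClosed ({p : (ℕ → V) × (ℕ → Z) | ∀ m, p.1 m ∈ D.G} ∩
        (fun p : (ℕ → V) × (ℕ → Z) => p.1 m - D.comm 0 (p.2 m) (p.1 (m + 1))) ⁻¹' {0}) :=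
      fun m => (hF m).preimage_isClosed_of_isClosed hS0cl isClosed_singleton
    refine hS0c.of_isClosed_subset ?_ (fun p hp => hp.1)
    have : RInf D = {p : (ℕ → V) × (ℕ → Z) | ∀ m, p.1 m ∈ D.G} ∩
        ⋂ m, ({p : (ℕ → V) × (ℕ → Z) | ∀ m, p.1 m ∈ D.G} ∩
        (fun p : (ℕ → V) × (ℕ → Z) => p.1 m - D.comm 0 (p.2 m) (p.1 (m + 1))) ⁻¹' {0}) := by
      ext p
      simp only [RInf, Set.mem_ofPred_eq, mem_inter_iff, mem_iInter, mem_preimage,
        mem_singleton_iff, sub_eq_zero]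
      constructor
      · rintro ⟨h1, h2⟩
        exact ⟨h1, fun m => ⟨h1, h2 m⟩⟩
      · rintro ⟨h1, h2⟩
        exact ⟨h1, fun m => (h2 m).2⟩
    rw [this]
    exact hS0cl.inter (isClosed_iInter hC)
  · rw [continuousOn_pi]
    intro i
    refine ContinuousOn.prodMk (by fun_prop) ?_
    refine ContinuousOn.smul ?_ ?_
    · exact D.rho_cont.comp (by fun_prop) (fun p hp => hp)
    · have : Continuous fun p : (ℕ → V) × (ℕ → Z) => D.col (p.2 i) :=
        D.col_cont.comp (by fun_prop)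
      exact this.continuousOn
  · intro p hp q hq h
    have h1 : p.1 = q.1 := by
      funext i
      have := congrFun h i
      exact (Prod.ext_iff.1 this).1
    refine ⟨h1, ?_⟩
    have hn : ∀ m, ‖p.1 m‖ ≤ 1 := fun m => D.hG1 _ (hp.1 m)
    by_cases h0 : D.rho p.1 = 0
    · right
      exact (D.rho_zero _ hn).1 h0
    · left
      funext i
      have h2 := (Prod.ext_iff.1 (congrFun h i)).2
      simp only [Phi] at h2
      rw [← h1] at h2
      exact D.col_inj (smul_right_injective W h0 h2)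

end Main
end Pool.KleeBing
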