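import Pool.Agent.Helper257.KleeBing.Defs
import Pool.Agent.Helper257.KleeBing.CellDefs
import Pool.Agent.Helper257.KleeBing.P_cell_param

open Set Filter Topology Metric

namespace Pool.KleeBing


section Main
variable {V W Z : Type*} [NormedAddCommGroup V] [NormedSpace ℝ V] [FiniteDimensional ℝ V]
    [NormedAddCommGroup W] [NormedSpace ℝ W] [FiniteDimensional ℝ W] [TopologicalSpace Z] [CompactSpace Z]


/-! TARGET: prove this theorem (add helper lemmas before it if you like; keep the statement) -/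


theorem cell_basic [Nonempty Z] (D : CellData V W Z) : IsCompact (K0 D) ∧ (K0 D).Nonempty ∧
    ∀ c ∈ K0 D, ∀ i, ‖c i‖ ≤ 1 := by
  have hsub : RInf D ⊆ {p | ∀ m, ‖p.1 m‖ ≤ 1} := fun p hp m => D.hG1 _ (hp.1 m)
  obtain ⟨hK, hR, hc, _⟩ := cell_param D
  refine ⟨?_, ?_, ?_⟩
  · rw [hK]
    exact hR.image_of_continuousOn (hc.mono hsub)
  · obtain ⟨z⟩ := ‹Nonempty Z›
    refine ⟨fun i => (D.one, D.rho (fun _ => D.one) • D.col z), fun _ => z, fun m => ?_, fun i => rfl⟩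
    exact ⟨D.one_mem, (D.comm_one 0 ⟨le_rfl, zero_le_one⟩ z).symm⟩
  · rintro c ⟨z, h1, h2⟩ i
    have hn : ∀ m, ‖(c m).1‖ ≤ 1 := fun m => D.hG1 _ (h1 m).1
    rw [Prod.norm_def]
    apply max_le (hn i)
    rw [h2 i, norm_smul]
    obtain ⟨h3, h4⟩ := D.rho_mem (fun m => (c m).1) hn
    rw [Real.norm_eq_abs, abs_of_nonneg h3]
    exact mul_le_one₀ h4 (norm_nonneg _) (D.col_norm _)

end Main
end Pool.KleeBing
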