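import Pool.Agent.Helper257.KleeBing.Defs
import Pool.Agent.Helper257.KleeBing.CellDefs

open Set Filter Topology Metric

namespace Pool.KleeBing


section Main
variable {V W Z : Type*} [NormedAddCommGroup V] [NormedSpace ℝ V] [FiniteDimensional ℝ V]
    [NormedAddCommGroup W] [NormedSpace ℝ W] [FiniteDimensional ℝ W] [TopologicalSpace Z] [CompactSpace Z]

/-! TARGET: prove this theorem (add helper lemmas before it if you like; keep the statement) -/


/-- the recursive part of the homotopy -/
noncomputable def gH (D : CellData V W Z) (n : ℕ) : ℕ → ℝ × ((ℕ → V) × (ℕ → Z)) → V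
  | 0 => fun q => D.comm (min (2 * q.1) 1) (q.2.2 n) (q.2.1 (n + 1))
  | k + 1 => fun q => D.comm 0 (q.2.2 (n - 1 - k)) (gH D n k q)

omit [FiniteDimensional ℝ V] [FiniteDimensional ℝ W] [CompactSpace Z] in
theorem gH_mem (D : CellData V W Z) (n k : ℕ) :
    ∀ q ∈ Icc (0 : ℝ) 1 ×ˢ RInf D, gH D n k q ∈ D.G := by
  induction k with
  | zero =>
    rintro ⟨t, p⟩ ⟨ht, hp⟩
    simp only at ht hp
    exact D.maps _ ⟨le_min (by linarith [ht.1]) zero_le_one, min_le_right _ _⟩ _ _ (hp.1 (n + 1))
  | succ k ih =>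
    intro q hq
    exact D.maps 0 ⟨le_rfl, zero_le_one⟩ _ _ (ih q hq)

omit [FiniteDimensional ℝ V] [FiniteDimensional ℝ W] [CompactSpace Z] in
theorem gH_cont (D : CellData V W Z) (n k : ℕ) :
    ContinuousOn (gH D n k) (Icc (0 : ℝ) 1 ×ˢ RInf D) := by
  induction k with
  | zero =>
    have h1 : ContinuousOn (fun q : ℝ × ((ℕ → V) × (ℕ → Z)) =>
        ((min (2 * q.1) 1, q.2.2 n, q.2.1 (n + 1)) : ℝ × Z × V)) (Icc (0 : ℝ) 1 ×ˢ RInf D) := by
      apply Continuous.continuousOn
      fun_prop
    apply D.cont.comp h1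
    rintro ⟨t, p⟩ ⟨ht, hp⟩
    simp only at ht hp
    exact ⟨⟨le_min (by simp only; linarith [ht.1]) zero_le_one, min_le_right _ _⟩, mem_univ _,
      hp.1 (n + 1)⟩
  | succ k ih =>
    have h1 : ContinuousOn (fun q : ℝ × ((ℕ → V) × (ℕ → Z)) =>
        (((0 : ℝ), q.2.2 (n - 1 - k), gH D n k q) : ℝ × Z × V)) (Icc (0 : ℝ) 1 ×ˢ RInf D) := by
      apply ContinuousOn.prodMk continuousOn_const
      apply ContinuousOn.prodMk _ ih
      apply Continuous.continuousOn
      fun_prop
    apply D.cont.comp h1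
    intro q hq
    exact ⟨⟨le_rfl, zero_le_one⟩, mem_univ _, gH_mem D n k q hq⟩

theorem cell_hom (D : CellData V W Z) (n : ℕ) :
    ∃ F : ℝ × ((ℕ → V) × (ℕ → Z)) → (ℕ → V), ContinuousOn F (Icc 0 1 ×ˢ RInf D) ∧
      (∀ p ∈ RInf D, F (0, p) = p.1) ∧ (∀ p ∈ RInf D, F (1, p) = fun _ => D.one) ∧
      (∀ t ∈ Icc (0 : ℝ) 1, ∀ p ∈ RInf D, (F (t, p), p.2) ∈ RR D n) ∧
      (∀ t ∈ Icc (0 : ℝ) 1, ∀ p ∈ RInf D, p.1 = (fun _ => D.one) → F (t, p) = fun _ => D.one) := by
  refine ⟨fun q m => if m ≤ n then gH D n (n - m) q else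
    (1 - max (2 * q.1 - 1) 0) • q.2.1 m + (max (2 * q.1 - 1) 0) • D.one, ?_, ?_, ?_, ?_, ?_⟩
  · apply continuousOn_pi.2
    intro m
    by_cases hm : m ≤ n
    · simp only [if_pos hm]
      exact gH_cont D n (n - m)
    · simp only [if_neg hm]
      apply Continuous.continuousOn
      fun_prop
  · intro p hp
    have h1 : ∀ k, k ≤ n → gH D n k (0, p) = p.1 (n - k) := by
      intro k
      induction k with
      | zero =>
        intro _
        simp only [gH, mul_zero, Nat.sub_zero]
        rw [min_eq_left zero_le_one]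
        exact (hp.2 n).symm
      | succ k ih =>
        intro hk
        simp only [gH]
        rw [ih (by omega), hp.2 (n - (k + 1))]
        have e1 : n - 1 - k = n - (k + 1) := by omega
        have e2 : n - k = n - (k + 1) + 1 := by omega
        rw [e1, e2]
    funext m
    by_cases hm : m ≤ n
    · simp only [if_pos hm]
      rw [h1 _ (by omega), show n - (n - m) = m by omega]
    · simp only [if_neg hm]
      have e1 : max (2 * (0 : ℝ) - 1) 0 = 0 := by norm_num
      rw [e1]
      simp
  · intro p hp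
    have h1 : ∀ k, gH D n k (1, p) = D.one := by
      intro k
      induction k with
      | zero =>
        simp only [gH]
        have e1 : min (2 * (1 : ℝ)) 1 = 1 := by norm_num
        rw [e1]
        exact D.comm_end _ _ (hp.1 (n + 1))
      | succ k ih =>
        simp only [gH]
        rw [ih]
        exact D.comm_one 0 ⟨le_rfl, zero_le_one⟩ _
    funext m
    by_cases hm : m ≤ n
    · simp only [if_pos hm]
      exact h1 _
    · simp only [if_neg hm]
      have e1 : max (2 * (1 : ℝ) - 1) 0 = 1 := by norm_num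
      rw [e1]
      simp
  · intro t ht p hp
    have hq : ((t, p) : ℝ × ((ℕ → V) × (ℕ → Z))) ∈ Icc (0 : ℝ) 1 ×ˢ RInf D := ⟨ht, hp⟩
    refine ⟨?_, ?_, ?_⟩
    · intro m
      by_cases hm : m ≤ n
      · simp only [if_pos hm]
        exact D.hG1 _ (gH_mem D n _ _ hq)
      · simp only [if_neg hm]
        have s0 : 0 ≤ max (2 * t - 1) 0 := le_max_right _ _
        have s1 : max (2 * t - 1) 0 ≤ 1 := max_le (by linarith [ht.2]) zero_le_one
        have n1 := D.hG1 _ (hp.1 m)
        have n2 := D.hG1 _ D.one_mem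
        calc ‖(1 - max (2 * t - 1) 0) • p.1 m + (max (2 * t - 1) 0) • D.one‖
            ≤ ‖(1 - max (2 * t - 1) 0) • p.1 m‖ + ‖(max (2 * t - 1) 0) • D.one‖ := norm_add_le _ _
          _ = (1 - max (2 * t - 1) 0) * ‖p.1 m‖ + max (2 * t - 1) 0 * ‖D.one‖ := by
              rw [norm_smul, norm_smul, Real.norm_of_nonneg (by linarith : 0 ≤ 1 - max (2 * t - 1) 0),
                Real.norm_of_nonneg s0]
          _ ≤ (1 - max (2 * t - 1) 0) * 1 + max (2 * t - 1) 0 * 1 :=
              add_le_add (mul_le_mul_of_nonneg_left n1 (by linarith))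
                (mul_le_mul_of_nonneg_left n2 s0)
          _ = 1 := by ring
    · intro m hm
      simp only [if_pos hm]
      exact gH_mem D n _ _ hq
    · intro m hm
      have hm1 : m ≤ n := hm.le
      have hm2 : m + 1 ≤ n := hm
      simp only [if_pos hm1, if_pos hm2]
      have e1 : n - m = (n - (m + 1)) + 1 := by omega
      rw [e1]
      simp only [gH]
      have e2 : n - 1 - (n - (m + 1)) = m := by omega
      rw [e2]
  · intro t ht p hp h1p
    have h1 : ∀ k, gH D n k (t, p) = D.one := by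
      intro k
      induction k with
      | zero =>
        simp only [gH]
        rw [h1p]
        exact D.comm_one _ ⟨le_min (by linarith [ht.1]) zero_le_one, min_le_right _ _⟩ _
      | succ k ih =>
        simp only [gH]
        rw [ih]
        exact D.comm_one 0 ⟨le_rfl, zero_le_one⟩ _
    funext m
    by_cases hm : m ≤ n
    · simp only [if_pos hm]
      exact h1 _
    · simp only [if_neg hm]
      rw [h1p]
      simp only
      rw [← add_smul]
      simp

end Main
end Pool.KleeBing
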