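import Pool.Agent.Helper257.KleeBing.Defs
import Pool.Agent.Helper257.KleeBing.CellDefs
import Pool.Agent.Helper257.KleeBing.P_cell_param

open Set Filter Topology Metric

namespace Pool.KleeBing


section Main
variable {V W Z : Type*} [NormedAddCommGroup V] [NormedSpace ℝ V] [FiniteDimensional ℝ V]
    [NormedAddCommGroup W] [NormedSpace ℝ W] [FiniteDimensional ℝ W] [TopologicalSpace Z] [CompactSpace Z]


/-! TARGET: prove this theorem (add helper lemmas before it if you like; keep the statement) -/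


theorem cell_nbhd (D : CellData V W Z) {U : Set (ℕ → V × W)} (hU : IsOpen U) (hKU : K0 D ⊆ U) :
    ∃ n, ∀ p ∈ RR D n, Phi D p ∈ U := by
  by_contra hcon
  push Not at hcon
  choose p hp hpU using hcon
  obtain ⟨hK0, hRc, hPhi, _⟩ := cell_param D
  have hQ : IsCompact ((Set.univ.pi (fun _ : ℕ => closedBall (0 : V) 1)) ×ˢ (Set.univ : Set (ℕ → Z))) :=
    (isCompact_univ_pi (fun _ => isCompact_closedBall 0 1)).prod isCompact_univ
  have hpQ : ∀ n, p n ∈ ((Set.univ.pi (fun _ : ℕ => closedBall (0 : V) 1)) ×ˢ (Set.univ : Set (ℕ → Z))) := by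
    intro n
    refine ⟨fun m _ => ?_, Set.mem_univ _⟩
    rw [mem_closedBall_zero_iff]
    exact (hp n).1 m
  set F : Ultrafilter ℕ := Ultrafilter.of atTop with hF
  have hFat : (F : Filter ℕ) ≤ atTop := Ultrafilter.of_le _
  obtain ⟨q, hqQ, hq⟩ := hQ.ultrafilter_le_nhds (F.map p) (by
    rw [Ultrafilter.coe_map, Filter.le_principal_iff]
    exact Filter.mem_map.mpr (Filter.Eventually.of_forall hpQ))
  have hlim : Tendsto p (F : Filter ℕ) (𝓝 q) := by
    rw [Ultrafilter.coe_map] at hq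
    exact hq
  have hev : ∀ m : ℕ, ∀ᶠ n in (F : Filter ℕ), m ≤ n := fun m => hFat (eventually_ge_atTop m)
  have hl1 : ∀ m, Tendsto (fun n => (p n).1 m) (F : Filter ℕ) (𝓝 (q.1 m)) := by
    intro m
    exact ((continuous_apply m).comp continuous_fst).continuousAt.tendsto.comp hlim
  have hl2 : ∀ m, Tendsto (fun n => (p n).2 m) (F : Filter ℕ) (𝓝 (q.2 m)) := by
    intro m
    exact ((continuous_apply m).comp continuous_snd).continuousAt.tendsto.comp hlim
  have hGe : ∀ m, ∀ᶠ n in (F : Filter ℕ), (p n).1 m ∈ D.G := by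
    intro m
    filter_upwards [hev m] with n hn
    exact (hp n).2.1 m hn
  have hqG : ∀ m, q.1 m ∈ D.G := by
    intro m
    exact D.hG.isClosed.mem_of_tendsto (hl1 m) (hGe m)
  have hqR : ∀ m, q.1 m = D.comm 0 (q.2 m) (q.1 (m + 1)) := by
    intro m
    have hc := D.cont (0, q.2 m, q.1 (m + 1)) ⟨by simp, Set.mem_univ _, hqG (m + 1)⟩
    have ht : Tendsto (fun n => ((0 : ℝ), (p n).2 m, (p n).1 (m + 1))) (F : Filter ℕ)
        (𝓝[Icc (0:ℝ) 1 ×ˢ univ ×ˢ D.G] (0, q.2 m, q.1 (m + 1))) := by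
      refine tendsto_nhdsWithin_iff.mpr ⟨?_, ?_⟩
      · exact tendsto_const_nhds.prodMk_nhds ((hl2 m).prodMk_nhds (hl1 (m + 1)))
      · filter_upwards [hGe (m + 1)] with n hn
        exact ⟨by simp, Set.mem_univ _, hn⟩
    have h1 : Tendsto (fun n => D.comm 0 ((p n).2 m) ((p n).1 (m + 1))) (F : Filter ℕ)
        (𝓝 (D.comm 0 (q.2 m) (q.1 (m + 1)))) := hc.tendsto.comp ht
    have h2 : Tendsto (fun n => D.comm 0 ((p n).2 m) ((p n).1 (m + 1))) (F : Filter ℕ) (𝓝 (q.1 m)) := by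
      refine (hl1 m).congr' ?_
      filter_upwards [hev (m + 1)] with n hn
      exact (hp n).2.2 m (by omega)
    exact tendsto_nhds_unique h2 h1
  have hqU : Phi D q ∈ U := by
    apply hKU
    rw [hK0]
    exact ⟨q, ⟨hqG, hqR⟩, rfl⟩
  have hqN : q ∈ {p : (ℕ → V) × (ℕ → Z) | ∀ m, ‖p.1 m‖ ≤ 1} := fun m => D.hG1 _ (hqG m)
  have hPt : Tendsto (fun n => Phi D (p n)) (F : Filter ℕ) (𝓝 (Phi D q)) := by
    refine (hPhi q hqN).tendsto.comp (tendsto_nhdsWithin_iff.mpr ⟨hlim, ?_⟩)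
    filter_upwards with n
    exact (hp n).1
  have := (hPt.eventually (hU.mem_nhds hqU)).exists
  obtain ⟨n, hn⟩ := this
  exact hpU n hn


end Main
end Pool.KleeBing
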