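import Pool.Agent.Helper257.KleeBing.Defs
import Pool.Agent.Helper257.KleeBing.CellDefs
import Pool.Agent.Helper257.KleeBing.P_cell_param
import Pool.Agent.Helper257.KleeBing.P_cell_nbhd
import Pool.Agent.Helper257.KleeBing.P_cell_hom

open Set Filter Topology Metric

namespace Pool.KleeBing


section Main
variable {V W Z : Type*} [NormedAddCommGroup V] [NormedSpace ℝ V] [FiniteDimensional ℝ V]
    [NormedAddCommGroup W] [NormedSpace ℝ W] [FiniteDimensional ℝ W] [TopologicalSpace Z] [CompactSpace Z]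


/-! TARGET: prove this theorem (add helper lemmas before it if you like; keep the statement) -/


theorem cell_like_quot {X Y T : Type*} [TopologicalSpace X] [TopologicalSpace Y] [T2Space Y]
    [TopologicalSpace T] {S : Set X} (hS : IsCompact S) {φ : X → Y} (hφ : ContinuousOn φ S)
    {H : Y → T} (hH : ContinuousOn (fun x => H (φ x)) S) : ContinuousOn H (φ '' S) := by
  rw [continuousOn_iff_isClosed]
  intro t ht
  obtain ⟨u, hu, he⟩ := continuousOn_iff_isClosed.1 hH t ht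
  refine ⟨φ '' (S ∩ u), ((hS.inter_right hu).image_of_continuousOn
    (hφ.mono inter_subset_left)).isClosed, ?_⟩
  ext y
  constructor
  · rintro ⟨hy, s, hs, rfl⟩
    have h1 : s ∈ (fun x => H (φ x)) ⁻¹' t ∩ S := ⟨hy, hs⟩
    rw [he] at h1
    exact ⟨⟨s, ⟨hs, h1.1⟩, rfl⟩, s, hs, rfl⟩
  · rintro ⟨⟨s, ⟨hs, hsu⟩, rfl⟩, hy2⟩
    have h1 : s ∈ u ∩ S := ⟨hsu, hs⟩
    rw [← he] at h1
    exact ⟨h1.1, hy2⟩

theorem cell_like_one (D : CellData V W Z) (z : ℕ → Z) :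
    Phi D (fun _ => D.one, z) = fun _ => (D.one, 0) := by
  have h1 : ∀ m : ℕ, ‖(fun _ : ℕ => D.one) m‖ ≤ 1 := fun _ => D.hG1 _ D.one_mem
  have h2 : D.rho (fun _ => D.one) = 0 := (D.rho_zero _ h1).2 rfl
  ext i
  · rfl
  · show D.rho (fun _ => D.one) • D.col (z i) = 0
    rw [h2, zero_smul]

theorem cell_like (D : CellData V W Z) : CellLike (E := fun _ => V × W) (K0 D) := by
  classical
  intro U hU hKU
  obtain ⟨n, hn⟩ := cell_nbhd D hU hKU
  obtain ⟨F, hFc, hF0, hF1, hFR, hFone⟩ := cell_hom D n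
  obtain ⟨hK, hRc, hPc, hPi⟩ := cell_param D
  set g : ℝ × ((ℕ → V) × (ℕ → Z)) → (ℕ → V × W) := fun q => Phi D (F q, q.2.2) with hg
  have hgc : ContinuousOn g (Icc 0 1 ×ˢ RInf D) := by
    apply hPc.comp (t := {p : (ℕ → V) × (ℕ → Z) | ∀ m, ‖p.1 m‖ ≤ 1})
    · exact hFc.prodMk ((continuous_snd.comp continuous_snd).continuousOn)
    · intro q hq
      exact (hFR q.1 hq.1 q.2 hq.2).1
  have hfib : ∀ t ∈ Icc (0 : ℝ) 1, ∀ p ∈ RInf D, ∀ q ∈ RInf D, Phi D p = Phi D q →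
      g (t, p) = g (t, q) := by
    intro t ht p hp q hq hpq
    obtain ⟨h1, h2⟩ := hPi p hp q hq hpq
    rcases h2 with h2 | h2
    · rw [Prod.ext h1 h2]
    · simp only [hg]
      rw [hFone t ht p hp h2, hFone t ht q hq (h1 ▸ h2), cell_like_one, cell_like_one]
  have hex : ∀ c ∈ K0 D, ∃ p ∈ RInf D, Phi D p = c := by
    intro c hc
    rw [hK] at hc
    exact hc
  set H : ℝ × (ℕ → V × W) → (ℕ → V × W) := fun q =>
    if h : ∃ p ∈ RInf D, Phi D p = q.2 then g (q.1, h.choose) else q.2 with hH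
  have hHg : ∀ t ∈ Icc (0 : ℝ) 1, ∀ p ∈ RInf D, H (t, Phi D p) = g (t, p) := by
    intro t ht p hp
    have h : ∃ p' ∈ RInf D, Phi D p' = (t, Phi D p).2 := ⟨p, hp, rfl⟩
    simp only [hH]
    rw [dif_pos h]
    exact hfib t ht _ h.choose_spec.1 p hp h.choose_spec.2
  refine ⟨H, fun _ => (D.one, 0), ?_, ?_, ?_, ?_⟩
  · have himg : (Icc (0 : ℝ) 1 ×ˢ K0 D) =
        (fun q : ℝ × ((ℕ → V) × (ℕ → Z)) => (q.1, Phi D q.2)) '' (Icc 0 1 ×ˢ RInf D) := by
      ext ⟨t, c⟩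
      constructor
      · rintro ⟨ht, hc⟩
        obtain ⟨p, hp, hpc⟩ := hex c hc
        exact ⟨(t, p), ⟨ht, hp⟩, by rw [← hpc]⟩
      · rintro ⟨⟨t', p⟩, ⟨ht, hp⟩, he⟩
        rw [Prod.mk.injEq] at he
        refine ⟨he.1 ▸ ht, ?_⟩
        show c ∈ K0 D
        rw [hK, ← he.2]
        exact ⟨p, hp, rfl⟩
    have hsub : ∀ p ∈ RInf D, ∀ m, ‖p.1 m‖ ≤ 1 := fun p hp m => D.hG1 _ (hp.1 m)
    rw [himg]
    apply cell_like_quot (isCompact_Icc.prod hRc)
    · apply continuous_fst.continuousOn.prodMk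
      apply hPc.comp (t := {p : (ℕ → V) × (ℕ → Z) | ∀ m, ‖p.1 m‖ ≤ 1})
        continuous_snd.continuousOn
      intro q hq
      exact hsub q.2 hq.2
    · apply hgc.congr
      rintro ⟨t, p⟩ ⟨ht, hp⟩
      exact hHg t ht p hp
  · intro c hc
    obtain ⟨p, hp, rfl⟩ := hex c hc
    rw [hHg 0 (by simp) p hp]
    simp only [hg]
    rw [hF0 p hp]
  · intro c hc
    obtain ⟨p, hp, rfl⟩ := hex c hc
    rw [hHg 1 (by simp) p hp]
    simp only [hg]
    rw [hF1 p hp, cell_like_one]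
  · intro t ht c hc
    obtain ⟨p, hp, rfl⟩ := hex c hc
    rw [hHg t ht p hp]
    have hR := hFR t ht p hp
    refine ⟨hn _ hR, fun i => ?_⟩
    have h1 : ‖F (t, p) i‖ ≤ 1 := hR.1 i
    have h2 := D.rho_mem (F (t, p)) hR.1
    show ‖(F (t, p) i, D.rho (F (t, p)) • D.col (p.2 i))‖ ≤ 1
    rw [Prod.norm_mk, max_le_iff]
    refine ⟨h1, ?_⟩
    rw [norm_smul, Real.norm_eq_abs, abs_of_nonneg h2.1]
    exact mul_le_one₀ h2.2 (norm_nonneg _) (D.col_norm _)

end Main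
end Pool.KleeBing
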