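import Pool.Agent.Helper257.KleeBing.Defs

open Set Filter Topology Metric

namespace Pool.KleeBing


section Main
variable {E : ℕ → Type*} [∀ i, NormedAddCommGroup (E i)] [∀ i, NormedSpace ℝ (E i)]
  [∀ i, FiniteDimensional ℝ (E i)]

/-! TARGET: prove this theorem (add helper lemmas before it if you like; keep the statement) -/


omit [∀ i, NormedAddCommGroup (E i)] [∀ i, NormedSpace ℝ (E i)]
  [∀ i, FiniteDimensional ℝ (E i)] in
theorem supBall_mem_iff (d : ℕ) (x : Fin d → ℝ) :
    x ∈ closedBall (0 : Fin d → ℝ) 1 ↔ ∀ i, x i ∈ Icc (-1 : ℝ) 1 := by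
  rw [closedBall_pi _ zero_le_one, Set.mem_univ_pi]
  simp only [Pi.zero_apply, Real.closedBall_eq_Icc, zero_sub, zero_add]

/-- the sup norm ball as a product of intervals -/
noncomputable def supBallHomeo (d : ℕ) :
    ↥(closedBall (0 : Fin d → ℝ) 1) ≃ₜ (Fin d → ↥(Icc (-1 : ℝ) 1)) where
  toFun x := fun i => ⟨x.1 i, (supBall_mem_iff d x.1).1 x.2 i⟩
  invFun y := ⟨fun i => (y i).1, (supBall_mem_iff d _).2 fun i => (y i).2⟩
  left_inv x := rfl
  right_inv y := rfl
  continuous_toFun := by
    refine continuous_pi fun i => Continuous.subtype_mk ?_ _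
    exact (continuous_apply i).comp continuous_subtype_val
  continuous_invFun := by
    refine Continuous.subtype_mk ?_ _
    exact continuous_pi fun i => continuous_subtype_val.comp (continuous_apply i)

theorem ball_cube (F : Type*) [NormedAddCommGroup F] [NormedSpace ℝ F] [FiniteDimensional ℝ F] :
    ∃ d : ℕ, Nonempty (↥(closedBall (0 : F) 2) ≃ₜ (Fin d → unitInterval)) := by
  have hprop : ProperSpace F := FiniteDimensional.proper_real F
  refine ⟨Module.finrank ℝ F, ⟨?_⟩⟩
  let L : F ≃L[ℝ] (Fin (Module.finrank ℝ F) → ℝ) := (Module.finBasis ℝ F).equivFunL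
  have hcpt : IsCompact (L '' closedBall (0 : F) 2) :=
    (isCompact_closedBall (0 : F) 2).image L.continuous
  have hconv : Convex ℝ (L '' closedBall (0 : F) 2) :=
    (convex_closedBall (0 : F) 2).linear_image (L : F →ₗ[ℝ] (Fin (Module.finrank ℝ F) → ℝ))
  have hint : (interior (L '' closedBall (0 : F) 2)).Nonempty := by
    refine ⟨L 0, ?_⟩
    rw [mem_interior]
    refine ⟨L '' ball (0 : F) 2, image_mono ball_subset_closedBall, ?_, ⟨0, ?_, rfl⟩⟩
    · exact L.toHomeomorph.isOpenMap _ isOpen_ball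
    · exact mem_ball_self (by norm_num)
  have hex := exists_homeomorph_image_interior_closure_frontier_eq_unitBall hconv hint
    hcpt.isBounded
  have hh : ∃ h : (Fin (Module.finrank ℝ F) → ℝ) ≃ₜ (Fin (Module.finrank ℝ F) → ℝ),
      h '' (L '' closedBall (0 : F) 2) = closedBall 0 1 := by
    obtain ⟨h, -, h2, -⟩ := hex
    rw [hcpt.isClosed.closure_eq] at h2
    exact ⟨h, h2⟩
  exact ((L.toHomeomorph.image (closedBall (0 : F) 2)).trans
    ((hh.choose.image (L '' closedBall (0 : F) 2)).trans
      ((Homeomorph.setCongr hh.choose_spec).trans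
        ((supBallHomeo _).trans
          (Homeomorph.piCongrRight fun _ => iccHomeoI (-1 : ℝ) 1 (by norm_num))))))

end Main
end Pool.KleeBing
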