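import Pool.Agent.Helper257.KleeBing.Defs
import Pool.Agent.Helper257.KleeBing.P_ball_cube

open Set Filter Topology Metric

namespace Pool.KleeBing


section Main
variable {E : ℕ → Type*} [∀ i, NormedAddCommGroup (E i)] [∀ i, NormedSpace ℝ (E i)]
  [∀ i, FiniteDimensional ℝ (E i)]


/-! TARGET: prove this theorem (add helper lemmas before it if you like; keep the statement) -/


omit [∀ i, NormedSpace ℝ (E i)] [∀ i, FiniteDimensional ℝ (E i)] in
theorem cube_aux1 : Nonempty (↥(XS E) ≃ₜ
    (∀ i, ↥(closedBall (0 : E i) 2)) × (ℕ → ↥(Icc (-1 : ℝ) 1))) := by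
  refine ⟨{
    toFun := fun x => (fun i => ⟨x.1.1 i, by
        rw [mem_closedBall, dist_zero_right]; exact x.2.1 i⟩,
      fun i => ⟨x.1.2 i, abs_le.1 (x.2.2 i)⟩)
    invFun := fun y => ⟨(fun i => (y.1 i).1, fun i => (y.2 i).1), by
      refine ⟨fun i => ?_, fun i => ?_⟩
      · have := (y.1 i).2
        rw [mem_closedBall, dist_zero_right] at this
        exact this
      · exact abs_le.2 (y.2 i).2⟩
    left_inv := fun x => rfl
    right_inv := fun y => rfl
    continuous_toFun := ?_
    continuous_invFun := ?_ }⟩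
  · refine Continuous.prodMk ?_ ?_
    · refine continuous_pi fun i => Continuous.subtype_mk ?_ _
      exact (continuous_apply i).comp (continuous_fst.comp continuous_subtype_val)
    · refine continuous_pi fun i => Continuous.subtype_mk ?_ _
      exact (continuous_apply i).comp (continuous_snd.comp continuous_subtype_val)
  · refine Continuous.subtype_mk ?_ _
    refine Continuous.prodMk ?_ ?_
    · refine continuous_pi fun i => ?_
      exact continuous_subtype_val.comp ((continuous_apply i).comp continuous_fst)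
    · refine continuous_pi fun i => ?_
      exact continuous_subtype_val.comp ((continuous_apply i).comp continuous_snd)

def cube_sigma (d : ℕ → ℕ) (X : Type*) [TopologicalSpace X] :
    (∀ i, Fin (d i) → X) ≃ₜ ((Σ i, Fin (d i)) → X) where
  toFun f := fun p => f p.1 p.2
  invFun g := fun i j => g ⟨i, j⟩
  left_inv f := rfl
  right_inv g := rfl
  continuous_toFun := by
    refine continuous_pi fun p => ?_
    exact (continuous_apply p.2).comp (continuous_apply p.1)
  continuous_invFun := by
    refine continuous_pi fun i => continuous_pi fun j => ?_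
    exact continuous_apply _

theorem cube : Nonempty (↥(XS E) ≃ₜ (ℕ → unitInterval)) := by
  obtain ⟨e1⟩ := cube_aux1 (E := E)
  choose d hd using fun i => ball_cube (E i)
  have e2 : (∀ i, ↥(closedBall (0 : E i) 2)) ≃ₜ (∀ i, Fin (d i) → unitInterval) :=
    Homeomorph.piCongrRight fun i => (hd i).some
  have e3 := cube_sigma d unitInterval
  have e4 : (ℕ → ↥(Icc (-1 : ℝ) 1)) ≃ₜ (ℕ → unitInterval) :=
    Homeomorph.piCongrRight fun _ => iccHomeoI (-1 : ℝ) 1 (by norm_num)
  have e5 := (Homeomorph.sumArrowHomeomorphProdArrow (X := unitInterval)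
    (ι := Σ i, Fin (d i)) (ι' := ℕ))
  obtain ⟨e6⟩ : Nonempty (((Σ i, Fin (d i)) ⊕ ℕ) ≃ ℕ) := nonempty_equiv_of_countable
  have e7 : (((Σ i, Fin (d i)) ⊕ ℕ) → unitInterval) ≃ₜ (ℕ → unitInterval) :=
    Homeomorph.piCongrLeft (Y := fun _ => unitInterval) e6
  exact ⟨e1.trans (((e2.trans e3).prodCongr e4).trans (e5.symm.trans e7))⟩

end Main
end Pool.KleeBing
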