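import Pool.Agent.Helper257.KleeBing.Defs

open Set Filter Topology Metric

namespace Pool.KleeBing


section Main
variable {E : ℕ → Type*} [∀ i, NormedAddCommGroup (E i)] [∀ i, NormedSpace ℝ (E i)]
  [∀ i, FiniteDimensional ℝ (E i)]

/-! TARGET: prove this theorem (add helper lemmas before it if you like; keep the statement) -/


theorem bing_limit_step {X : Type*} [MetricSpace X] [CompactSpace X] {A : Set X}
    (hne : A.Nonempty)
    (H : ∀ ε > (0 : ℝ), ∃ h : X ≃ₜ X, (∀ x, ε ≤ infDist x A → h x = x) ∧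
      ∀ a ∈ A, ∀ b ∈ A, dist (h a) (h b) < ε) (g : X ≃ₜ X) (ε η : ℝ) (hε : 0 < ε) (hη : 0 < η) :
    ∃ (g' : X ≃ₜ X) (ε' : ℝ), 0 < ε' ∧ ε' ≤ ε / 2 ∧ (∀ x, ε ≤ infDist x A → g' x = g x) ∧
      (∀ x, infDist x A < ε → ∃ x', infDist x' A < ε ∧ g' x = g x') ∧
      (∀ x y, infDist x A < ε' → infDist y A < ε' → dist (g' x) (g' y) < η) := by
  have huc : ∀ k : X ≃ₜ X, ∃ δ > (0 : ℝ), ∀ x y, dist x y < δ → dist (k x) (k y) < η / 3 := by
    intro k
    obtain ⟨δ, hδ, h⟩ := Metric.uniformContinuous_iff.1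
      (CompactSpace.uniformContinuous_of_continuous k.continuous) (η / 3) (by positivity)
    exact ⟨δ, hδ, fun x y hxy => h hxy⟩
  obtain ⟨δ, hδ, hg⟩ := huc g
  obtain ⟨h, h1, h2⟩ := H (min δ ε) (lt_min hδ hε)
  obtain ⟨δ2, hδ2, hg2⟩ := huc (h.trans g)
  refine ⟨h.trans g, min δ2 (ε / 2), lt_min hδ2 (by positivity), min_le_right _ _, ?_, ?_, ?_⟩
  · intro x hx
    rw [Homeomorph.trans_apply, h1 x ((min_le_right _ _).trans hx)]
  · intro x hx
    refine ⟨h x, ?_, by rw [Homeomorph.trans_apply]⟩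
    by_contra hcon
    push Not at hcon
    have h3 := h1 (h x) ((min_le_right _ _).trans hcon)
    have h4 := h.injective h3
    rw [h4] at hcon
    linarith
  · intro x y hx hy
    obtain ⟨a, ha, hxa⟩ := (infDist_lt_iff hne).1 (lt_of_lt_of_le hx (min_le_left _ _))
    obtain ⟨b, hb, hyb⟩ := (infDist_lt_iff hne).1 (lt_of_lt_of_le hy (min_le_left _ _))
    have e1 := hg2 x a hxa
    have e2 := hg2 y b hyb
    have e3 : dist ((h.trans g) a) ((h.trans g) b) < η / 3 := by
      rw [Homeomorph.trans_apply, Homeomorph.trans_apply]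
      exact hg _ _ (lt_of_lt_of_le (h2 a ha b hb) (min_le_left _ _))
    have e4 := dist_triangle4 ((h.trans g) x) ((h.trans g) a) ((h.trans g) b) ((h.trans g) y)
    rw [dist_comm ((h.trans g) b) ((h.trans g) y)] at e4
    linarith

theorem bing_limit_seq {X : Type*} [MetricSpace X] [CompactSpace X] {A : Set X}
    (hne : A.Nonempty)
    (H : ∀ ε > (0 : ℝ), ∃ h : X ≃ₜ X, (∀ x, ε ≤ infDist x A → h x = x) ∧
      ∀ a ∈ A, ∀ b ∈ A, dist (h a) (h b) < ε) :
    ∃ (G : ℕ → X ≃ₜ X) (e : ℕ → ℝ), (∀ n, 0 < e n) ∧ (∀ n, e (n + 1) ≤ e n / 2) ∧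
      (∀ n x, e n ≤ infDist x A → G (n + 1) x = G n x) ∧
      (∀ n x, infDist x A < e n → ∃ x', infDist x' A < e n ∧ G (n + 1) x = G n x') ∧
      (∀ n x y, infDist x A < e n → infDist y A < e n → dist (G n x) (G n y) < (1 / 2 : ℝ) ^ n) := by
  have step : ∀ (n : ℕ) (p : (X ≃ₜ X) × ℝ), ∃ q : (X ≃ₜ X) × ℝ, 0 < p.2 →
      (0 < q.2 ∧ q.2 ≤ p.2 / 2 ∧ (∀ x, p.2 ≤ infDist x A → q.1 x = p.1 x) ∧
      (∀ x, infDist x A < p.2 → ∃ x', infDist x' A < p.2 ∧ q.1 x = p.1 x') ∧
      (∀ x y, infDist x A < q.2 → infDist y A < q.2 → dist (q.1 x) (q.1 y) < (1 / 2 : ℝ) ^ n)) := by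
    intro n p
    by_cases hp : 0 < p.2
    · obtain ⟨g', ε', h⟩ := bing_limit_step hne H p.1 p.2 ((1 / 2 : ℝ) ^ n) hp (by positivity)
      exact ⟨(g', ε'), fun _ => h⟩
    · exact ⟨p, fun h => absurd h hp⟩
  choose F hF using step
  obtain ⟨s, hs0, hs1⟩ : ∃ s : ℕ → (X ≃ₜ X) × ℝ, s 0 = F 0 (Homeomorph.refl X, 1) ∧
      ∀ n, s (n + 1) = F (n + 1) (s n) :=
    ⟨fun n => Nat.rec (F 0 (Homeomorph.refl X, 1)) (fun n p => F (n + 1) p) n, rfl, fun _ => rfl⟩
  have hpos : ∀ n, 0 < (s n).2 := by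
    intro n
    induction n with
    | zero =>
      rw [hs0]
      exact (hF 0 (Homeomorph.refl X, 1) one_pos).1
    | succ n ih =>
      rw [hs1]
      exact (hF (n + 1) (s n) ih).1
  refine ⟨fun n => (s n).1, fun n => (s n).2, hpos, ?_, ?_, ?_, ?_⟩
  · intro n
    show (s (n + 1)).2 ≤ _
    rw [hs1]
    exact (hF (n + 1) (s n) (hpos n)).2.1
  · intro n x hx
    show (s (n + 1)).1 x = _
    rw [hs1]
    exact (hF (n + 1) (s n) (hpos n)).2.2.1 x hx
  · intro n x hx
    show ∃ x', _ ∧ (s (n + 1)).1 x = _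
    rw [hs1]
    exact (hF (n + 1) (s n) (hpos n)).2.2.2.1 x hx
  · intro n
    cases n with
    | zero =>
      intro x y hx hy
      have h := (hF 0 (Homeomorph.refl X, 1) one_pos).2.2.2.2 x y
      rw [← hs0] at h
      exact h hx hy
    | succ n =>
      intro x y hx hy
      have h := (hF (n + 1) (s n) (hpos n)).2.2.2.2 x y
      rw [← hs1] at h
      exact h hx hy

/-- Bing shrinking: a closed set which can be shrunk by homeomorphisms supported near it is a point
inverse of a map `X → X`. -/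
theorem bing_limit {X : Type*} [MetricSpace X] [CompactSpace X] {A : Set X} (hA : IsClosed A)
    (hne : A.Nonempty)
    (H : ∀ ε > (0 : ℝ), ∃ h : X ≃ₜ X, (∀ x, ε ≤ infDist x A → h x = x) ∧
      ∀ a ∈ A, ∀ b ∈ A, dist (h a) (h b) < ε) :
    ∃ f : X → X, Continuous f ∧ Function.Surjective f ∧
      ∀ x y, f x = f y ↔ x = y ∨ (x ∈ A ∧ y ∈ A) := by
  obtain ⟨G, e, he0, he1, hG1, hG2, hG3⟩ := bing_limit_seq hne H
  have hdist : ∀ x n, dist (G n x) (G (n + 1) x) ≤ 1 * (1 / 2 : ℝ) ^ n := by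
    intro x n
    rcases le_or_gt (e n) (infDist x A) with h | h
    · rw [hG1 n x h, dist_self]; positivity
    · obtain ⟨x', hx', h2⟩ := hG2 n x h
      rw [h2, one_mul]
      exact (hG3 n x x' h hx').le
  have hlim : ∀ x, ∃ y, Tendsto (fun n => G n x) atTop (𝓝 y) := fun x =>
    cauchySeq_tendsto_of_complete (cauchySeq_of_le_geometric (1 / 2) 1 (by norm_num) (hdist x))
  choose f hf using hlim
  have hfd : ∀ x n, dist (G n x) (f x) ≤ 1 * (1 / 2 : ℝ) ^ n / (1 - 1 / 2) := fun x n =>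
    dist_le_of_le_geometric_of_tendsto (1 / 2) 1 (by norm_num) (hdist x) (hf x) n
  have hfd' : ∀ x n, dist (G n x) (f x) ≤ 2 * (1 / 2 : ℝ) ^ n := by
    intro x n
    refine (hfd x n).trans (le_of_eq (by ring))
  have htend : Tendsto (fun n : ℕ => 2 * (1 / 2 : ℝ) ^ n) atTop (𝓝 0) := by
    have := (tendsto_pow_atTop_nhds_zero_of_lt_one (r := (1 / 2 : ℝ)) (by norm_num)
      (by norm_num)).const_mul 2
    simpa using this
  have hcont : Continuous f := by
    have h1 : TendstoUniformly (fun n x => G n x) f atTop := by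
      rw [Metric.tendstoUniformly_iff]
      intro ε hε
      filter_upwards [htend.eventually_lt_const hε] with n hn x
      rw [dist_comm]
      exact lt_of_le_of_lt (hfd' x n) hn
    exact h1.continuous (Filter.Eventually.of_forall fun n => (G n).continuous).frequently
  have hsurj : Function.Surjective f := by
    intro y
    have h1 : y ∈ closure (range f) := by
      rw [Metric.mem_closure_range_iff]
      intro ε hε
      obtain ⟨n, hn⟩ := (htend.eventually_lt_const hε).exists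
      refine ⟨(G n).symm y, ?_⟩
      have h2 := hfd' ((G n).symm y) n
      rw [Homeomorph.apply_symm_apply] at h2
      exact lt_of_le_of_lt h2 hn
    rw [(isCompact_range hcont).isClosed.closure_eq] at h1
    exact h1
  have hemono : Antitone e := antitone_nat_of_succ_le fun n => by
    have := he0 n
    have := he1 n
    linarith
  have hesmall : ∀ r > (0 : ℝ), ∃ n, e n < r := by
    intro r hr
    have h1 : ∀ n, e n ≤ e 0 * (1 / 2 : ℝ) ^ n := by
      intro n
      induction n with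
      | zero => simp
      | succ n ih =>
        have := he1 n
        rw [pow_succ]
        linarith
    have h2 : Tendsto (fun n : ℕ => e 0 * (1 / 2 : ℝ) ^ n) atTop (𝓝 0) := by
      have := (tendsto_pow_atTop_nhds_zero_of_lt_one (r := (1 / 2 : ℝ)) (by norm_num)
        (by norm_num)).const_mul (e 0)
      simpa using this
    obtain ⟨n, hn⟩ := (h2.eventually_lt_const hr).exists
    exact ⟨n, lt_of_le_of_lt (h1 n) hn⟩
  -- values off `A`
  have hoff : ∀ x n, e n ≤ infDist x A → f x = G n x := by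
    intro x n hn
    have h1 : ∀ m, n ≤ m → G m x = G n x := by
      intro m hm
      induction m, hm using Nat.le_induction with
      | base => rfl
      | succ m hm ih => rw [hG1 m x ((hemono hm).trans hn), ih]
    refine tendsto_nhds_unique (hf x) ?_
    refine tendsto_const_nhds.congr' ?_
    filter_upwards [eventually_ge_atTop n] with m hm
    exact (h1 m hm).symm
  have hposA : ∀ x, x ∉ A → 0 < infDist x A := fun x hx =>
    (hA.notMem_iff_infDist_pos hne).1 hx
  have hin : ∀ a ∈ A, ∀ n, infDist a A < e n := fun a ha n => by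
    rw [infDist_zero_of_mem ha]; exact he0 n
  have hconst : ∀ a ∈ A, ∀ b ∈ A, f a = f b := by
    intro a ha b hb
    have h1 : Tendsto (fun n => dist (G n a) (G n b)) atTop (𝓝 (dist (f a) (f b))) :=
      (hf a).dist (hf b)
    have h2 : Tendsto (fun n => dist (G n a) (G n b)) atTop (𝓝 0) := by
      refine squeeze_zero (fun n => dist_nonneg)
        (fun n => (hG3 n a b (hin a ha n) (hin b hb n)).le) ?_
      exact tendsto_pow_atTop_nhds_zero_of_lt_one (by norm_num) (by norm_num)
    exact dist_eq_zero.1 (tendsto_nhds_unique h1 h2)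
  have hnest : ∀ n m, n ≤ m → ∀ x, infDist x A < e m →
      ∃ x', infDist x' A < e n ∧ G m x = G n x' := by
    intro n m hm
    induction m, hm using Nat.le_induction with
    | base => exact fun x hx => ⟨x, hx, rfl⟩
    | succ m hm ih =>
      intro x hx
      obtain ⟨x1, hx1, h1⟩ := hG2 m x (lt_of_lt_of_le hx (hemono (Nat.le_succ m)))
      obtain ⟨x2, hx2, h2⟩ := ih x1 hx1
      exact ⟨x2, hx2, h1.trans h2⟩
  have hsep : ∀ x, x ∉ A → ∀ a ∈ A, f x ≠ f a := by
    intro x hx a ha hxa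
    obtain ⟨n, hn⟩ := hesmall _ (hposA x hx)
    have h1 : IsClosed ((G n) '' {z | infDist z A ≤ e n}) :=
      (G n).isClosedMap _ (isClosed_le (continuous_infDist_pt A) continuous_const)
    have h2 : f a ∈ (G n) '' {z | infDist z A ≤ e n} := by
      refine h1.mem_of_tendsto (hf a) ?_
      filter_upwards [eventually_ge_atTop n] with m hm
      obtain ⟨x', hx', h3⟩ := hnest n m hm a (hin a ha m)
      exact ⟨x', hx'.le, h3.symm⟩
    obtain ⟨z, hz, hz2⟩ := h2
    rw [← hxa, hoff x n hn.le] at hz2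
    have h3 := (G n).injective hz2
    rw [h3] at hz
    have hz' : infDist x A ≤ e n := hz
    linarith
  refine ⟨f, hcont, hsurj, fun x y => ⟨fun hxy => ?_, ?_⟩⟩
  · by_cases hx : x ∈ A
    · by_cases hy : y ∈ A
      · exact Or.inr ⟨hx, hy⟩
      · exact absurd hxy.symm (hsep y hy x hx)
    · by_cases hy : y ∈ A
      · exact absurd hxy (hsep x hx y hy)
      · left
        obtain ⟨n, hn⟩ := hesmall (min (infDist x A) (infDist y A))
          (lt_min (hposA x hx) (hposA y hy))
        rw [hoff x n (hn.le.trans (min_le_left _ _)), hoff y n (hn.le.trans (min_le_right _ _))]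
          at hxy
        exact (G n).injective hxy
  · rintro (h | ⟨hx, hy⟩)
    · rw [h]
    · exact hconst x hx y hy

end Main
end Pool.KleeBing
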