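import Pool.Agent.Helper257.KleeBing.Defs

open Set Filter Topology Metric

namespace Pool.KleeBing


section Main
variable {E : ℕ → Type*} [∀ i, NormedAddCommGroup (E i)] [∀ i, NormedSpace ℝ (E i)]
  [∀ i, FiniteDimensional ℝ (E i)]

/-! TARGET: prove this theorem (add helper lemmas before it if you like; keep the statement) -/


theorem xs_compact : IsCompact (XS E) := by
  have h1 : XS E = (univ.pi fun i => closedBall (0 : E i) 2) ×ˢ
      (univ.pi fun _ : ℕ => Icc (-1 : ℝ) 1) := by
    ext p
    constructor
    · intro hp
      refine ⟨fun i _ => ?_, fun i _ => ?_⟩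
      · rw [mem_closedBall_zero_iff]
        exact hp.1 i
      · exact abs_le.mp (hp.2 i)
    · intro hp
      refine ⟨fun i => ?_, fun i => ?_⟩
      · have h2 := hp.1 i (mem_univ i)
        rwa [mem_closedBall_zero_iff] at h2
      · exact abs_le.mpr (hp.2 i (mem_univ i))
  rw [h1]
  refine IsCompact.prod ?_ ?_
  · refine isCompact_univ_pi fun i => ?_
    have : ProperSpace (E i) := FiniteDimensional.proper_real (E i)
    exact isCompact_closedBall _ _
  · exact isCompact_univ_pi fun i => isCompact_Icc

end Main
end Pool.KleeBing
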