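import Pool.Agent.Helper257.KleeBing.Defs
import Pool.Agent.Helper257.KleeBing.P_xs_compact

open Set Filter Topology Metric

namespace Pool.KleeBing


section Main
variable {E : ℕ → Type*} [∀ i, NormedAddCommGroup (E i)] [∀ i, NormedSpace ℝ (E i)]
  [∀ i, FiniteDimensional ℝ (E i)]


/-! TARGET: prove this theorem (add helper lemmas before it if you like; keep the statement) -/


theorem coords {V : Set (↥(XS E) × ↥(XS E))} (hV : IsOpen V) (hd : ∀ x : ↥(XS E), (x, x) ∈ V) :
    ∃ n : ℕ, ∀ x y : ↥(XS E), (∀ i < n, x.1.1 i = y.1.1 i ∧ x.1.2 i = y.1.2 i) → (x, y) ∈ V := by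
  have hc : CompactSpace ↥(XS E) := isCompact_iff_compactSpace.1 xs_compact
  by_contra hcon
  push Not at hcon
  let F : ℕ → Set (↥(XS E) × ↥(XS E)) := fun n =>
    Vᶜ ∩ {p | ∀ i < n, p.1.1.1 i = p.2.1.1 i ∧ p.1.1.2 i = p.2.1.2 i}
  have hcl : ∀ n, IsClosed (F n) := by
    intro n
    refine hV.isClosed_compl.inter ?_
    have : {p : ↥(XS E) × ↥(XS E) | ∀ i < n, p.1.1.1 i = p.2.1.1 i ∧ p.1.1.2 i = p.2.1.2 i} =
        ⋂ i : ℕ, ⋂ _ : i < n, ({p : ↥(XS E) × ↥(XS E) | p.1.1.1 i = p.2.1.1 i} ∩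
          {p : ↥(XS E) × ↥(XS E) | p.1.1.2 i = p.2.1.2 i}) := by
      ext p
      simp [Set.mem_iInter]
    rw [this]
    refine isClosed_iInter (fun i => isClosed_iInter (fun _ => IsClosed.inter ?_ ?_))
    · exact isClosed_eq
        ((continuous_apply i).comp (continuous_fst.comp (continuous_subtype_val.comp continuous_fst)))
        ((continuous_apply i).comp (continuous_fst.comp (continuous_subtype_val.comp continuous_snd)))
    · exact isClosed_eq
        ((continuous_apply i).comp (continuous_snd.comp (continuous_subtype_val.comp continuous_fst)))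
        ((continuous_apply i).comp (continuous_snd.comp (continuous_subtype_val.comp continuous_snd)))
  obtain ⟨⟨x, y⟩, hp⟩ := IsCompact.nonempty_iInter_of_sequence_nonempty_isCompact_isClosed F
    (fun n p hp => ⟨hp.1, fun i hi => hp.2 i (Nat.lt_succ_of_lt hi)⟩)
    (fun n => by
      obtain ⟨x, y, hxy, hV'⟩ := hcon n
      exact ⟨(x, y), hV', hxy⟩)
    (hcl 0).isCompact hcl
  have hF : ∀ n, (x, y) ∈ F n := fun n => Set.mem_iInter.1 hp n
  have hxy : x = y := by
    apply Subtype.ext
    apply Prod.ext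
    · funext i
      exact ((hF (i + 1)).2 i (Nat.lt_succ_self i)).1
    · funext i
      exact ((hF (i + 1)).2 i (Nat.lt_succ_self i)).2
  subst hxy
  exact (hF 0).1 (hd x)

end Main
end Pool.KleeBing
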