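import Pool.Agent.Helper257.KleeBing.Defs

open Set Filter Topology Metric

namespace Pool.KleeBing


section Main
variable {E : ℕ → Type*} [∀ i, NormedAddCommGroup (E i)] [∀ i, NormedSpace ℝ (E i)]
  [∀ i, FiniteDimensional ℝ (E i)]

/-! TARGET: prove this theorem (add helper lemmas before it if you like; keep the statement) -/


theorem good_homeo {W : Set ((∀ i, E i) × (ℕ → ℝ))} {h : (∀ i, E i) × (ℕ → ℝ) → (∀ i, E i) × (ℕ → ℝ)}
    (hh : Good W h) : ∃ g : ↥(XS E) ≃ₜ ↥(XS E), ∀ x : ↥(XS E), ((g x : ↥(XS E)) : (∀ i, E i) × (ℕ → ℝ)) = h x := by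
  classical
  have hXS : (XS E : Set ((∀ i, E i) × (ℕ → ℝ))) =
      (Set.univ.pi (fun i => closedBall (0 : E i) 2)) ×ˢ (Set.univ.pi (fun _ : ℕ => Icc (-1 : ℝ) 1)) := by
    ext p
    simp only [XS, Set.mem_setOf_eq, Set.mem_prod, Set.mem_univ_pi, mem_closedBall_zero_iff, Set.mem_Icc, abs_le]
  have hc : IsCompact (XS E) := by
    rw [hXS]
    exact (isCompact_univ_pi (fun i => isCompact_closedBall _ _)).prod
      (isCompact_univ_pi (fun _ => isCompact_Icc))
  haveI : CompactSpace ↥(XS E) := isCompact_iff_compactSpace.mp hc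
  let h' : ↥(XS E) → ↥(XS E) := fun x => ⟨h x, hh.bij.mapsTo x.2⟩
  have hcont : Continuous h' := by
    apply Continuous.subtype_mk
    exact hh.cont.restrict
  have hbij : Function.Bijective h' := by
    constructor
    · intro x y hxy
      exact Subtype.ext (hh.bij.injOn x.2 y.2 (congrArg Subtype.val hxy))
    · intro y
      obtain ⟨x, hx, hxy⟩ := hh.bij.surjOn y.2
      exact ⟨⟨x, hx⟩, Subtype.ext hxy⟩
  refine ⟨Continuous.homeoOfEquivCompactToT2 (f := Equiv.ofBijective h' hbij) hcont, fun x => rfl⟩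

end Main
end Pool.KleeBing
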