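import Pool.Agent.Helper257.KleeBing.Defs

open Set Filter Topology Metric

namespace Pool.KleeBing


section Main
variable {E : ℕ → Type*} [∀ i, NormedAddCommGroup (E i)] [∀ i, NormedSpace ℝ (E i)]
  [∀ i, FiniteDimensional ℝ (E i)]

/-! TARGET: prove this theorem (add helper lemmas before it if you like; keep the statement) -/


theorem cutoff {T O : Set (ℕ → ℝ)} (hT : IsClosed T) (hO : IsOpen O) (hTO : T ⊆ O) :
    ∃ l : (ℕ → ℝ) → ℝ, Continuous l ∧ (∀ s, 0 ≤ l s ∧ l s ≤ 1) ∧ (∀ s ∈ T, l s = 1) ∧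
      ∀ s, s ∉ O → l s = 0 := by
  have hd : Disjoint Oᶜ T := Set.disjoint_left.2 fun x hx hxT => hx (hTO hxT)
  obtain ⟨f, hf0, hf1, hf⟩ := exists_continuous_zero_one_of_isClosed hO.isClosed_compl hT hd
  exact ⟨f, f.continuous, fun s => ⟨(hf s).1, (hf s).2⟩, fun s hs => hf1 hs, fun s hs => hf0 hs⟩

end Main
end Pool.KleeBing
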