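import Pool.Agent.Helper257.KleeBing.Defs

open Set Filter Topology Metric

namespace Pool.KleeBing


section Main
variable {E : ℕ → Type*} [∀ i, NormedAddCommGroup (E i)] [∀ i, NormedSpace ℝ (E i)]
  [∀ i, FiniteDimensional ℝ (E i)]

/-! TARGET: prove this theorem (add helper lemmas before it if you like; keep the statement) -/


theorem embed : ∃ e : (∀ i, E i) → ℕ → ℝ, Continuous e ∧ Function.Injective e ∧
    ∀ c j, |e c j| ≤ 1 / 2 := by
  have hsep : ∀ i, TopologicalSpace.SeparableSpace (E i) := by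
    intro i
    have : ProperSpace (E i) := FiniteDimensional.proper ℝ (E i)
    infer_instance
  let d : ∀ i, ℕ → E i := fun i => TopologicalSpace.denseSeq (E i)
  have hd : ∀ i, DenseRange (d i) := fun i => TopologicalSpace.denseRange_denseSeq (E i)
  refine ⟨fun c j => ‖c (Nat.unpair j).1 - d (Nat.unpair j).1 (Nat.unpair j).2‖ /
    (2 * (1 + ‖c (Nat.unpair j).1 - d (Nat.unpair j).1 (Nat.unpair j).2‖)), ?_, ?_, ?_⟩
  · refine continuous_pi fun j => ?_
    have h1 : Continuous fun c : ∀ i, E i =>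
        ‖c (Nat.unpair j).1 - d (Nat.unpair j).1 (Nat.unpair j).2‖ :=
      ((continuous_apply (Nat.unpair j).1).sub continuous_const).norm
    refine h1.div (continuous_const.mul (continuous_const.add h1)) fun c => ?_
    positivity
  · intro c c' hcc
    have h1 : ∀ i k, ‖c i - d i k‖ = ‖c' i - d i k‖ := by
      intro i k
      have key : ∀ (p : ℕ × ℕ) (j : ℕ), Nat.unpair j = p →
          ‖c p.1 - d p.1 p.2‖ / (2 * (1 + ‖c p.1 - d p.1 p.2‖)) =
          ‖c' p.1 - d p.1 p.2‖ / (2 * (1 + ‖c' p.1 - d p.1 p.2‖)) := by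
        rintro p j rfl
        exact congrFun hcc j
      have h2 : ‖c i - d i k‖ / (2 * (1 + ‖c i - d i k‖)) =
          ‖c' i - d i k‖ / (2 * (1 + ‖c' i - d i k‖)) :=
        key (i, k) (Nat.pair i k) (Nat.unpair_pair i k)
      have h3 : 0 ≤ ‖c i - d i k‖ := norm_nonneg _
      have h4 : 0 ≤ ‖c' i - d i k‖ := norm_nonneg _
      rw [div_eq_div_iff (by positivity) (by positivity)] at h2
      linarith
    funext i
    by_contra hne
    have hpos : 0 < ‖c i - c' i‖ := norm_pos_iff.2 (sub_ne_zero.2 hne)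
    obtain ⟨k, hk⟩ := (hd i).exists_dist_lt (c i) (half_pos hpos)
    rw [dist_eq_norm] at hk
    have h2 := h1 i k
    have h3 : ‖c i - c' i‖ ≤ ‖c i - d i k‖ + ‖c' i - d i k‖ := by
      have : c i - c' i = (c i - d i k) - (c' i - d i k) := by abel
      rw [this]
      exact norm_sub_le _ _
    linarith
  · intro c j
    have h3 : 0 ≤ ‖c (Nat.unpair j).1 - d (Nat.unpair j).1 (Nat.unpair j).2‖ := norm_nonneg _
    rw [abs_of_nonneg (by positivity), div_le_iff₀ (by positivity)]
    linarith

end Main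
end Pool.KleeBing
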