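import Pool.Agent.Helper257.KleeBing.Defs

open Set Filter Topology Metric

namespace Pool.KleeBing


section Main
variable {E : ℕ → Type*} [∀ i, NormedAddCommGroup (E i)] [∀ i, NormedSpace ℝ (E i)]
  [∀ i, FiniteDimensional ℝ (E i)]

/-! TARGET: prove this theorem (add helper lemmas before it if you like; keep the statement) -/


theorem good_comp {W : Set ((∀ i, E i) × (ℕ → ℝ))} {h g : (∀ i, E i) × (ℕ → ℝ) → (∀ i, E i) × (ℕ → ℝ)}
    (hh : Good W h) (hg : Good W g) : Good W (g ∘ h) where
  cont := hg.cont.comp hh.cont hh.bij.mapsTo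
  bij := hg.bij.comp hh.bij
  off x hx hxW := by
    show g (h x) = x
    rw [hh.off x hx hxW, hg.off x hx hxW]

end Main
end Pool.KleeBing
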