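import Pool.Agent.Helper257.KleeBing.Defs

open Set Filter Topology Metric

namespace Pool.KleeBing


section Main
variable {E : ℕ → Type*} [∀ i, NormedAddCommGroup (E i)] [∀ i, NormedSpace ℝ (E i)]
  [∀ i, FiniteDimensional ℝ (E i)]

/-! TARGET: prove this theorem (add helper lemmas before it if you like; keep the statement) -/


theorem path_ext {K : Set (∀ i, E i)} (hK : IsCompact K) (H : ℝ × (∀ i, E i) → (∀ i, E i))
    (hH : ContinuousOn H (Icc 0 1 ×ˢ K)) (e : (∀ i, E i) → ℕ → ℝ) (he : Continuous e)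
    (hinj : Function.Injective e) :
    ∃ P : (ℕ → ℝ) × ℝ → ∀ i, E i, Continuous P ∧
      ∀ t ∈ Icc (0 : ℝ) 1, ∀ k ∈ K, P (e k, t) = H (t, k) := by
  have hD : IsCompact (Icc (0 : ℝ) 1 ×ˢ K) := isCompact_Icc.prod hK
  have : CompactSpace ↥(Icc (0 : ℝ) 1 ×ˢ K) := isCompact_iff_compactSpace.mp hD
  let ι : ↥(Icc (0 : ℝ) 1 ×ˢ K) → (ℕ → ℝ) × ℝ := fun x => (e x.1.2, x.1.1)
  have hι : Continuous ι := by
    have h1 : Continuous fun x : ↥(Icc (0 : ℝ) 1 ×ˢ K) => e x.1.2 :=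
      he.comp (continuous_snd.comp continuous_subtype_val)
    exact h1.prodMk (continuous_fst.comp continuous_subtype_val)
  have hιi : Function.Injective ι := by
    intro x y hxy
    have h1 : e x.1.2 = e y.1.2 := congrArg Prod.fst hxy
    have h2 : x.1.1 = y.1.1 := congrArg Prod.snd hxy
    exact Subtype.ext (Prod.ext h2 (hinj h1))
  have hcl : IsClosedEmbedding ι := hι.isClosedEmbedding hιi
  let f : C(↥(Icc (0 : ℝ) 1 ×ˢ K), ∀ i, E i) :=
    ⟨fun x => H x.1, continuousOn_iff_continuous_restrict.mp hH⟩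
  have hT : ∀ i, TietzeExtension (E i) := fun i => TietzeExtension.of_tvs ℝ
  have hTT : TietzeExtension (∀ i, E i) := inferInstance
  obtain ⟨g, hg⟩ := ContinuousMap.exists_extension hcl f
  refine ⟨g, g.continuous, fun t ht k hk => ?_⟩
  have := congrArg (fun φ : C(↥(Icc (0 : ℝ) 1 ×ˢ K), ∀ i, E i) => φ ⟨(t, k), ⟨ht, hk⟩⟩) hg
  exact this

end Main
end Pool.KleeBing
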