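import Pool.Agent.Helper257.KleeBing.Defs

open Set Filter Topology Metric

namespace Pool.KleeBing


section Main
variable {E : ℕ → Type*} [∀ i, NormedAddCommGroup (E i)] [∀ i, NormedSpace ℝ (E i)]
  [∀ i, FiniteDimensional ℝ (E i)]

/-! TARGET: prove this theorem (add helper lemmas before it if you like; keep the statement) -/


omit [∀ i, NormedSpace ℝ (E i)] [∀ i, FiniteDimensional ℝ (E i)] in
theorem push_NN_cont (n : ℕ) : Continuous (NN n : (∀ i, E i) → ℝ) := by
  unfold NN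
  exact continuous_norm.comp (continuous_pi fun i => continuous_apply (i : ℕ))

omit [∀ i, NormedSpace ℝ (E i)] [∀ i, FiniteDimensional ℝ (E i)] in
theorem push_NN_nonneg (n : ℕ) (c : ∀ i, E i) : 0 ≤ NN n c := norm_nonneg _

omit [∀ i, NormedSpace ℝ (E i)] [∀ i, FiniteDimensional ℝ (E i)] in
theorem push_le_NN (n : ℕ) (c : ∀ i, E i) (i : ℕ) (hi : i < n) : ‖c i‖ ≤ NN n c :=
  norm_le_pi_norm (fun i : Fin n => c i) ⟨i, hi⟩

omit [∀ i, NormedSpace ℝ (E i)] [∀ i, FiniteDimensional ℝ (E i)] in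
theorem push_NN_lt (n : ℕ) (c : ∀ i, E i) (a : ℝ) (ha : 0 < a) (h : ∀ i < n, ‖c i‖ < a) :
    NN n c < a := by
  unfold NN
  rw [pi_norm_lt_iff ha]
  exact fun i => h i i.2

omit [∀ i, NormedSpace ℝ (E i)] [∀ i, FiniteDimensional ℝ (E i)] in
theorem push_NN_sub (n : ℕ) (a b : ∀ i, E i) : |NN n a - NN n b| ≤ NN n (a - b) :=
  abs_norm_sub_norm_le (fun i : Fin n => a i) (fun i : Fin n => b i)

/-- the coefficient -/
noncomputable def push_mu (n : ℕ) (r : ℝ) (p : (ℕ → ℝ) → ∀ i, E i) (l : (ℕ → ℝ) → ℝ)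
    (c : ∀ i, E i) (s : ℕ → ℝ) : ℝ := l s * max 0 (1 - NN n (c - p s) / r)

omit [∀ i, NormedSpace ℝ (E i)] [∀ i, FiniteDimensional ℝ (E i)] in
theorem push_mu_nonneg (n : ℕ) (r : ℝ) (p : (ℕ → ℝ) → ∀ i, E i) (l : (ℕ → ℝ) → ℝ)
    (hl01 : ∀ s, 0 ≤ l s ∧ l s ≤ 1) (c : ∀ i, E i) (s : ℕ → ℝ) : 0 ≤ push_mu n r p l c s :=
  mul_nonneg (hl01 s).1 (le_max_left _ _)

omit [∀ i, NormedSpace ℝ (E i)] [∀ i, FiniteDimensional ℝ (E i)] in
theorem push_mu_le (n : ℕ) (r : ℝ) (p : (ℕ → ℝ) → ∀ i, E i) (l : (ℕ → ℝ) → ℝ)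
    (hl01 : ∀ s, 0 ≤ l s ∧ l s ≤ 1) (c : ∀ i, E i) (s : ℕ → ℝ)
    (h : push_mu n r p l c s ≠ 0) :
    l s ≠ 0 ∧ push_mu n r p l c s ≤ 1 - NN n (c - p s) / r ∧ 0 < 1 - NN n (c - p s) / r := by
  have h1 : l s ≠ 0 := left_ne_zero_of_mul h
  have h2 : max 0 (1 - NN n (c - p s) / r) ≠ 0 := right_ne_zero_of_mul h
  have h3 : 0 < 1 - NN n (c - p s) / r := by
    by_contra hcon
    exact h2 (max_eq_left (not_lt.1 hcon))
  refine ⟨h1, ?_, h3⟩
  unfold push_mu
  rw [max_eq_right h3.le]
  have := (hl01 s).2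
  nlinarith

omit [∀ i, NormedSpace ℝ (E i)] [∀ i, FiniteDimensional ℝ (E i)] in
theorem push_mu_le_one (n : ℕ) (r : ℝ) (hr : 0 < r) (p : (ℕ → ℝ) → ∀ i, E i) (l : (ℕ → ℝ) → ℝ)
    (hl01 : ∀ s, 0 ≤ l s ∧ l s ≤ 1) (c : ∀ i, E i) (s : ℕ → ℝ) : push_mu n r p l c s ≤ 1 := by
  by_cases h : push_mu n r p l c s = 0
  · rw [h]; norm_num
  · have h1 := (push_mu_le n r p l hl01 c s h).2.1
    have h2 : 0 ≤ NN n (c - p s) / r := div_nonneg (push_NN_nonneg _ _) hr.le
    linarith

omit [∀ i, NormedSpace ℝ (E i)] [∀ i, FiniteDimensional ℝ (E i)] in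
theorem push_mu_lip (n : ℕ) (r : ℝ) (hr : 0 < r) (p : (ℕ → ℝ) → ∀ i, E i) (l : (ℕ → ℝ) → ℝ)
    (hl01 : ∀ s, 0 ≤ l s ∧ l s ≤ 1) (c c' : ∀ i, E i) (s : ℕ → ℝ) :
    |push_mu n r p l c' s - push_mu n r p l c s| ≤ NN n (c - c') / r := by
  unfold push_mu
  rw [← mul_sub, abs_mul, abs_of_nonneg (hl01 s).1]
  have h1 : |max 0 (1 - NN n (c' - p s) / r) - max 0 (1 - NN n (c - p s) / r)| ≤
      |(1 - NN n (c' - p s) / r) - (1 - NN n (c - p s) / r)| := by
    rw [max_comm 0, max_comm 0]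
    exact abs_max_sub_max_le_abs _ _ _
  have h2 : (1 - NN n (c' - p s) / r) - (1 - NN n (c - p s) / r) =
      (NN n (c - p s) - NN n (c' - p s)) / r := by ring
  have h3 : |NN n (c - p s) - NN n (c' - p s)| ≤ NN n (c - c') := by
    have := push_NN_sub n (c - p s) (c' - p s)
    rwa [sub_sub_sub_cancel_right] at this
  rw [h2, abs_div, abs_of_pos hr] at h1
  have h4 : |NN n (c - p s) - NN n (c' - p s)| / r ≤ NN n (c - c') / r :=
    div_le_div_of_nonneg_right h3 hr.le
  calc l s * |max 0 (1 - NN n (c' - p s) / r) - max 0 (1 - NN n (c - p s) / r)| ≤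
        1 * |max 0 (1 - NN n (c' - p s) / r) - max 0 (1 - NN n (c - p s) / r)| :=
        mul_le_mul_of_nonneg_right (hl01 s).2 (abs_nonneg _)
    _ ≤ NN n (c - c') / r := by rw [one_mul]; exact h1.trans h4

omit [∀ i, FiniteDimensional ℝ (E i)] in
theorem push_lt (n : ℕ) (r : ℝ) (p q : (ℕ → ℝ) → ∀ i, E i) (l : (ℕ → ℝ) → ℝ)
    (x : (∀ i, E i) × (ℕ → ℝ)) (i : ℕ) (hi : i < n) : (pushMap n r p q l x).1 i =
      x.1 i + push_mu n r p l x.1 x.2 • (q x.2 i - p x.2 i) := by
  show (if i < n then _ else _) = _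
  rw [if_pos hi]
  rfl

omit [∀ i, FiniteDimensional ℝ (E i)] in
theorem push_ge (n : ℕ) (r : ℝ) (p q : (ℕ → ℝ) → ∀ i, E i) (l : (ℕ → ℝ) → ℝ)
    (x : (∀ i, E i) × (ℕ → ℝ)) (i : ℕ) (hi : ¬ i < n) : (pushMap n r p q l x).1 i = x.1 i := by
  show (if i < n then _ else _) = _
  rw [if_neg hi]

theorem push (n : ℕ) (r : ℝ) (hr : 0 < r) (p q : (ℕ → ℝ) → ∀ i, E i) (l : (ℕ → ℝ) → ℝ)
    (hp : Continuous p) (hq : Continuous q) (hl : Continuous l) (hl01 : ∀ s, 0 ≤ l s ∧ l s ≤ 1)
    (hpq : ∀ s, l s ≠ 0 → ∀ i < n, ‖p s i‖ + r ≤ 2 ∧ ‖q s i - p s i‖ < r) :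
    ContinuousOn (pushMap n r p q l) (XS E) ∧ BijOn (pushMap n r p q l) (XS E) (XS E) := by
  have hmuc : Continuous fun z : (∀ i, E i) × (ℕ → ℝ) => push_mu n r p l z.1 z.2 := by
    unfold push_mu
    have h1 : Continuous fun z : (∀ i, E i) × (ℕ → ℝ) => NN n (z.1 - p z.2) :=
      (push_NN_cont n).comp (continuous_fst.sub (hp.comp continuous_snd))
    exact (hl.comp continuous_snd).mul
      (continuous_const.max (continuous_const.sub (h1.div_const r)))
  refine ⟨?_, ?_, ?_, ?_⟩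
  · apply Continuous.continuousOn
    refine Continuous.prodMk ?_ continuous_snd
    refine continuous_pi fun i => ?_
    by_cases hi : i < n
    · simp only [if_pos hi]
      exact ((continuous_apply i).comp continuous_fst).add
        (hmuc.smul (((continuous_apply i).comp (hq.comp continuous_snd)).sub
          ((continuous_apply i).comp (hp.comp continuous_snd))))
    · simp only [if_neg hi]
      exact (continuous_apply i).comp continuous_fst
  · intro x hx
    refine ⟨fun i => ?_, hx.2⟩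
    by_cases hi : i < n
    · rw [push_lt n r p q l x i hi]
      by_cases hmu : push_mu n r p l x.1 x.2 = 0
      · rw [hmu, zero_smul, add_zero]
        exact hx.1 i
      · obtain ⟨h1, h2, h3⟩ := push_mu_le n r p l hl01 x.1 x.2 hmu
        obtain ⟨h4, h5⟩ := hpq x.2 h1 i hi
        have h6 : ‖x.1 i - p x.2 i‖ ≤ NN n (x.1 - p x.2) := push_le_NN n (x.1 - p x.2) i hi
        have h7 : x.1 i + push_mu n r p l x.1 x.2 • (q x.2 i - p x.2 i) =
            p x.2 i + (x.1 i - p x.2 i) + push_mu n r p l x.1 x.2 • (q x.2 i - p x.2 i) := by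
          abel
        rw [h7]
        refine (norm_add_le _ _).trans ?_
        have h8 := norm_add_le (p x.2 i) (x.1 i - p x.2 i)
        have h9 : ‖push_mu n r p l x.1 x.2 • (q x.2 i - p x.2 i)‖ ≤
            (1 - NN n (x.1 - p x.2) / r) * r := by
          rw [norm_smul, Real.norm_of_nonneg (push_mu_nonneg n r p l hl01 _ _)]
          exact mul_le_mul h2 h5.le (norm_nonneg _) h3.le
        have h10 : (1 - NN n (x.1 - p x.2) / r) * r = r - NN n (x.1 - p x.2) := by
          field_simp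
        rw [h10] at h9
        linarith
    · rw [push_ge n r p q l x i hi]
      exact hx.1 i
  · intro x _ x' _ hxx
    have hs : x.2 = x'.2 := by
      have h := congrArg Prod.snd hxx
      exact h
    have hfst : ∀ i, (pushMap n r p q l x).1 i = (pushMap n r p q l x').1 i := by
      intro i
      rw [hxx]
    have hD : NN n (x.1 - x'.1) ≤ 0 := by
      by_contra hcon
      push Not at hcon
      have hlt : ∀ i < n, ‖(x.1 - x'.1) i‖ < NN n (x.1 - x'.1) := by
        intro i hi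
        have h1 := hfst i
        rw [push_lt n r p q l x i hi, push_lt n r p q l x' i hi, ← hs] at h1
        have h2 : x.1 i - x'.1 i =
            (push_mu n r p l x'.1 x.2 - push_mu n r p l x.1 x.2) • (q x.2 i - p x.2 i) := by
          rw [sub_smul]
          have h3 := sub_eq_sub_iff_add_eq_add.2 h1
          rw [sub_eq_sub_iff_add_eq_add, h1]
          abel
        show ‖x.1 i - x'.1 i‖ < _
        rw [h2, norm_smul, Real.norm_eq_abs]
        by_cases hls : l x.2 = 0
        · have e1 : push_mu n r p l x'.1 x.2 = 0 := by unfold push_mu; rw [hls, zero_mul]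
          have e2 : push_mu n r p l x.1 x.2 = 0 := by unfold push_mu; rw [hls, zero_mul]
          rw [e1, e2, sub_zero, abs_zero, zero_mul]
          exact hcon
        · have h4 := (hpq x.2 hls i hi).2
          have h5 := push_mu_lip n r hr p l hl01 x.1 x'.1 x.2
          calc |push_mu n r p l x'.1 x.2 - push_mu n r p l x.1 x.2| * ‖q x.2 i - p x.2 i‖ ≤
                NN n (x.1 - x'.1) / r * ‖q x.2 i - p x.2 i‖ :=
                mul_le_mul_of_nonneg_right h5 (norm_nonneg _)
            _ < NN n (x.1 - x'.1) / r * r := mul_lt_mul_of_pos_left h4 (by positivity)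
            _ = NN n (x.1 - x'.1) := by field_simp
      exact lt_irrefl _ (push_NN_lt n _ _ hcon hlt)
    refine Prod.ext ?_ hs
    funext i
    by_cases hi : i < n
    · have h1 := (push_le_NN n (x.1 - x'.1) i hi).trans hD
      have h2 : ‖x.1 i - x'.1 i‖ ≤ 0 := h1
      exact sub_eq_zero.1 (norm_le_zero_iff.1 h2)
    · have h1 := hfst i
      rwa [push_ge n r p q l x i hi, push_ge n r p q l x' i hi] at h1
  · intro y hy
    let v : ∀ i, E i := fun i => if i < n then q y.2 i - p y.2 i else 0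
    have hgc : Continuous fun t : ℝ => push_mu n r p l (y.1 - t • v) y.2 - t := by
      have h1 : Continuous fun t : ℝ => ((y.1 - t • v, y.2) : (∀ i, E i) × (ℕ → ℝ)) := by
        refine Continuous.prodMk ?_ continuous_const
        refine continuous_pi fun i => ?_
        exact continuous_const.sub (continuous_id.smul continuous_const)
      exact (hmuc.comp h1).sub continuous_id
    have hIVT := intermediate_value_Icc' (zero_le_one' ℝ) hgc.continuousOn
    have h0 : (0 : ℝ) ∈ Icc (push_mu n r p l (y.1 - (1 : ℝ) • v) y.2 - 1)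
        (push_mu n r p l (y.1 - (0 : ℝ) • v) y.2 - 0) := by
      constructor
      · have := push_mu_le_one n r hr p l hl01 (y.1 - (1 : ℝ) • v) y.2
        linarith
      · have := push_mu_nonneg n r p l hl01 (y.1 - (0 : ℝ) • v) y.2
        linarith
    obtain ⟨t, ht, hteq⟩ := hIVT h0
    have hteq' : push_mu n r p l (y.1 - t • v) y.2 = t := by
      have : push_mu n r p l (y.1 - t • v) y.2 - t = 0 := hteq
      linarith
    have hxi : ∀ i, i < n → (y.1 - t • v) i = y.1 i - t • (q y.2 i - p y.2 i) := by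
      intro i hi
      show y.1 i - t • (if i < n then _ else _) = _
      rw [if_pos hi]
    have hxi' : ∀ i, ¬ i < n → (y.1 - t • v) i = y.1 i := by
      intro i hi
      show y.1 i - t • (if i < n then _ else _) = _
      rw [if_neg hi, smul_zero, sub_zero]
    refine ⟨(y.1 - t • v, y.2), ⟨?_, hy.2⟩, ?_⟩
    · intro i
      show ‖(y.1 - t • v) i‖ ≤ 2
      by_cases hi : i < n
      · by_cases ht0 : t = 0
        · rw [hxi i hi, ht0, zero_smul, sub_zero]
          exact hy.1 i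
        · have hmu : push_mu n r p l (y.1 - t • v) y.2 ≠ 0 := by rwa [hteq']
          obtain ⟨h1, h2, h3⟩ := push_mu_le n r p l hl01 (y.1 - t • v) y.2 hmu
          obtain ⟨h4, h5⟩ := hpq y.2 h1 i hi
          have h6 : ‖(y.1 - t • v) i - p y.2 i‖ ≤ NN n ((y.1 - t • v) - p y.2) :=
            push_le_NN n ((y.1 - t • v) - p y.2) i hi
          have h7 : NN n ((y.1 - t • v) - p y.2) < r := by
            have h8 : NN n ((y.1 - t • v) - p y.2) / r < 1 := by linarith
            rwa [div_lt_one hr] at h8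
          have h9 : ‖(y.1 - t • v) i‖ ≤ ‖(y.1 - t • v) i - p y.2 i‖ + ‖p y.2 i‖ := by
            have := norm_add_le ((y.1 - t • v) i - p y.2 i) (p y.2 i)
            rwa [sub_add_cancel] at this
          linarith
      · rw [hxi' i hi]
        exact hy.1 i
    · refine Prod.ext ?_ rfl
      funext i
      by_cases hi : i < n
      · rw [push_lt n r p q l _ i hi]
        show (y.1 - t • v) i + push_mu n r p l (y.1 - t • v) y.2 • (q y.2 i - p y.2 i) = y.1 i
        rw [hteq', hxi i hi, sub_add_cancel]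
      · rw [push_ge n r p q l _ i hi]
        exact hxi' i hi

end Main
end Pool.KleeBing
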