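import Pool.Agent.Helper257.KleeBing.Defs

open Set Filter Topology Metric

namespace Pool.KleeBing


section Main
variable {E : ℕ → Type*} [∀ i, NormedAddCommGroup (E i)] [∀ i, NormedSpace ℝ (E i)]
  [∀ i, FiniteDimensional ℝ (E i)]

/-! TARGET: prove this theorem (add helper lemmas before it if you like; keep the statement) -/


theorem shear_den {α t : ℝ} (hα : |α| ≤ 1 / 2) (ht : |t| ≤ 1) : 1 / 2 ≤ 1 + α * t := by
  have h1 : |α * t| ≤ 1 / 2 := by
    rw [abs_mul]
    calc |α| * |t| ≤ (1 / 2) * 1 := mul_le_mul hα ht (abs_nonneg _) (by norm_num)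
      _ = 1 / 2 := by norm_num
  have := (abs_le.1 h1).1
  linarith

theorem shear_bd {α t : ℝ} (hα : |α| ≤ 1 / 2) (ht : |t| ≤ 1) : |(t + α) / (1 + α * t)| ≤ 1 := by
  have hd := shear_den hα ht
  have hd0 : 0 < 1 + α * t := by linarith
  obtain ⟨h1, h2⟩ := abs_le.1 hα
  obtain ⟨h3, h4⟩ := abs_le.1 ht
  rw [abs_div, abs_of_pos hd0, div_le_one hd0, abs_le]
  constructor
  · nlinarith [mul_nonneg (show 0 ≤ 1 + α by linarith) (show 0 ≤ 1 + t by linarith)]
  · nlinarith [mul_nonneg (show 0 ≤ 1 - α by linarith) (show 0 ≤ 1 - t by linarith)]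

theorem shear_id {α t : ℝ} (hα : |α| ≤ 1 / 2) (ht : |t| ≤ 1) :
    ((t + α) / (1 + α * t) + -α) / (1 + -α * ((t + α) / (1 + α * t))) = t := by
  have hd := shear_den hα ht
  have hd0 : 1 + α * t ≠ 0 := by
    intro h
    linarith
  obtain ⟨h1, h2⟩ := abs_le.1 hα
  have h5 : 1 - α ^ 2 ≠ 0 := by
    intro h
    nlinarith
  obtain ⟨D, hD⟩ : ∃ D : ℝ, D = 1 + α * t := ⟨_, rfl⟩
  rw [← hD] at hd0 ⊢
  have e1 : (t + α) / D + -α = t * (1 - α ^ 2) / D := by
    field_simp
    rw [hD]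
    ring
  have e2 : 1 + -α * ((t + α) / D) = (1 - α ^ 2) / D := by
    field_simp
    rw [hD]
    ring
  rw [e1, e2]
  field_simp

theorem shear_maps {E : ℕ → Type*} [∀ i, NormedAddCommGroup (E i)]
    (n : ℕ) (a : (∀ i, E i) × (ℕ → ℝ) → ℕ → ℝ)
    (hb : ∀ x i, |a x i| ≤ 1 / 2) : MapsTo (shearMap n a) (XS E) (XS E) := by
  intro x hx
  refine ⟨hx.1, fun i => ?_⟩
  show |if i < n then x.2 i else (x.2 i + a x i) / (1 + a x i * x.2 i)| ≤ 1
  split_ifs
  · exact hx.2 i
  · exact shear_bd (hb x i) (hx.2 i)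

theorem shear_left {E : ℕ → Type*} [∀ i, NormedAddCommGroup (E i)]
    (n : ℕ) (a : (∀ i, E i) × (ℕ → ℝ) → ℕ → ℝ)
    (hb : ∀ x i, |a x i| ≤ 1 / 2)
    (hdep : ∀ (c : ∀ i, E i) (s s' : ℕ → ℝ), (∀ i < n, s i = s' i) → a (c, s) = a (c, s')) :
    LeftInvOn (shearMap n (fun x i => -(a x i))) (shearMap n a) (XS E) := by
  intro x hx
  have h1 : a (shearMap n a x) = a x := by
    have := hdep x.1 (shearMap n a x).2 x.2 (fun i hi => by
      show (if i < n then x.2 i else (x.2 i + a x i) / (1 + a x i * x.2 i)) = x.2 i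
      rw [if_pos hi])
    exact this
  refine Prod.ext rfl (funext fun i => ?_)
  show (if i < n then (shearMap n a x).2 i else ((shearMap n a x).2 i + -(a (shearMap n a x) i)) /
    (1 + -(a (shearMap n a x) i) * (shearMap n a x).2 i)) = x.2 i
  rw [h1]
  have h2 : (shearMap n a x).2 i =
    if i < n then x.2 i else (x.2 i + a x i) / (1 + a x i * x.2 i) := rfl
  rw [h2]
  split_ifs with hi
  · rfl
  · exact shear_id (hb x i) (hx.2 i)

theorem shear (n : ℕ) (a : (∀ i, E i) × (ℕ → ℝ) → ℕ → ℝ) (ha : Continuous a)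
    (hb : ∀ x i, |a x i| ≤ 1 / 2)
    (hdep : ∀ (c : ∀ i, E i) (s s' : ℕ → ℝ), (∀ i < n, s i = s' i) → a (c, s) = a (c, s')) :
    ContinuousOn (shearMap n a) (XS E) ∧ BijOn (shearMap n a) (XS E) (XS E) := by
  have hb' : ∀ x i, |(fun x i => -(a x i)) x i| ≤ 1 / 2 := fun x i => by
    show |-(a x i)| ≤ 1 / 2
    rw [abs_neg]
    exact hb x i
  have hdep' : ∀ (c : ∀ i, E i) (s s' : ℕ → ℝ), (∀ i < n, s i = s' i) →
      (fun x i => -(a x i)) (c, s) = (fun x i => -(a x i)) (c, s') := fun c s s' h => by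
    show (fun i => -(a (c, s) i)) = fun i => -(a (c, s') i)
    rw [hdep c s s' h]
  refine ⟨?_, ?_⟩
  · refine continuousOn_fst.prodMk (continuousOn_pi.2 fun i => ?_)
    have hs : Continuous fun x : (∀ i, E i) × (ℕ → ℝ) => x.2 i :=
      (continuous_apply i).comp continuous_snd
    have hai : Continuous fun x : (∀ i, E i) × (ℕ → ℝ) => a x i := (continuous_apply i).comp ha
    by_cases hi : i < n
    · simp only [if_pos hi]
      exact hs.continuousOn
    · simp only [if_neg hi]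
      refine (hs.add hai).continuousOn.div (continuous_const.add (hai.mul hs)).continuousOn ?_
      intro x hx h0
      have := shear_den (hb x i) (hx.2 i)
      have h0' : 1 + a x i * x.2 i = 0 := h0
      linarith
  · refine InvOn.bijOn (f' := shearMap n (fun x i => -(a x i)))
      ⟨shear_left n a hb hdep, ?_⟩ (shear_maps n a hb) (shear_maps n _ hb')
    have h := shear_left n (fun x i => -(a x i)) hb' hdep'
    have e : (fun (x : (∀ i, E i) × (ℕ → ℝ)) (i : ℕ) => -(-(a x i))) = a := by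
      funext x i
      exact neg_neg _
    intro x hx
    have h3 := h hx
    simp only [neg_neg] at h3
    exact h3

end Main
end Pool.KleeBing
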