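import Pool.Agent.Helper257.KleeBing.Defs

open Set Filter Topology Metric

namespace Pool.KleeBing


section Main
variable {E : ℕ → Type*} [∀ i, NormedAddCommGroup (E i)] [∀ i, NormedSpace ℝ (E i)]
  [∀ i, FiniteDimensional ℝ (E i)]

/-! TARGET: prove this theorem (add helper lemmas before it if you like; keep the statement) -/


theorem steps {K : Set (∀ i, E i)} (hK : IsCompact K) (H : ℝ × (∀ i, E i) → (∀ i, E i))
    (hH : ContinuousOn H (Icc 0 1 ×ˢ K)) (n : ℕ) {r : ℝ} (hr : 0 < r) :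
    ∃ N : ℕ, 0 < N ∧ ∀ j < N, ∀ k ∈ K, ∀ i < n,
      ‖H (((j : ℝ) + 1) / N, k) i - H ((j : ℝ) / N, k) i‖ < r := by
  have hG : ContinuousOn (fun z => (fun i : Fin n => H z i)) (Icc (0 : ℝ) 1 ×ˢ K) := by
    refine continuousOn_pi.2 fun i => ?_
    exact (continuous_apply (i : ℕ)).comp_continuousOn hH
  have hU := (isCompact_Icc.prod hK).uniformContinuousOn_of_continuous hG
  have h1 : {p : (∀ i : Fin n, E i) × (∀ i : Fin n, E i) | dist p.1 p.2 < r} ∈
      uniformity (∀ i : Fin n, E i) := Metric.dist_mem_uniformity hr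
  have h2 := hU h1
  rw [Filter.mem_map, Filter.mem_inf_principal] at h2
  obtain ⟨⟨δ, W⟩, ⟨hδ, hW⟩, hsub⟩ := (Metric.uniformity_basis_dist.uniformity_prod
    (uniformity (∀ i, E i)).basis_sets).mem_iff.1 h2
  simp only at hδ hW hsub
  obtain ⟨N, hN⟩ := exists_nat_gt (1 / δ)
  have hNpos : (0 : ℝ) < N := lt_trans (by positivity) hN
  refine ⟨N, by exact_mod_cast hNpos, fun j hj k hk i hi => ?_⟩
  have hj1 : (j : ℝ) + 1 ≤ N := by exact_mod_cast hj
  have hj0 : (0 : ℝ) ≤ j := Nat.cast_nonneg j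
  have m1 : ((j : ℝ) + 1) / N ∈ Icc (0 : ℝ) 1 :=
    ⟨by positivity, by rw [div_le_one hNpos]; exact hj1⟩
  have m2 : (j : ℝ) / N ∈ Icc (0 : ℝ) 1 :=
    ⟨by positivity, by rw [div_le_one hNpos]; linarith⟩
  have hd : dist (((j : ℝ) + 1) / N) ((j : ℝ) / N) < δ := by
    rw [Real.dist_eq, ← sub_div]
    have : (j : ℝ) + 1 - j = 1 := by ring
    rw [this, abs_of_pos (by positivity)]
    rw [div_lt_iff₀ hNpos]
    rw [div_lt_iff₀ hδ] at hN
    linarith
  have hmem : (((((j : ℝ) + 1) / N, k), ((j : ℝ) / N, k)) :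
      (ℝ × (∀ i, E i)) × (ℝ × (∀ i, E i))) ∈ entourageProd {p : ℝ × ℝ | dist p.1 p.2 < δ} W := by
    rw [mem_entourageProd]
    exact ⟨hd, refl_mem_uniformity hW⟩
  have h3 := hsub hmem ⟨⟨m1, hk⟩, ⟨m2, hk⟩⟩
  have h4 : dist (fun i : Fin n => H (((j : ℝ) + 1) / N, k) i)
      (fun i : Fin n => H ((j : ℝ) / N, k) i) < r := h3
  have h5 := dist_le_pi_dist (fun i : Fin n => H (((j : ℝ) + 1) / N, k) i)
      (fun i : Fin n => H ((j : ℝ) / N, k) i) ⟨i, hi⟩
  rw [← dist_eq_norm]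
  exact lt_of_le_of_lt h5 h4

end Main
end Pool.KleeBing
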