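import Pool.Agent.Helper257.KleeBing.Defs
import Pool.Agent.Helper257.KleeBing.P_xs_compact

open Set Filter Topology Metric

namespace Pool.KleeBing


section Main
variable {E : ℕ → Type*} [∀ i, NormedAddCommGroup (E i)] [∀ i, NormedSpace ℝ (E i)]
  [∀ i, FiniteDimensional ℝ (E i)]


/-! TARGET: prove this theorem (add helper lemmas before it if you like; keep the statement) -/


theorem tube {K : Set (∀ i, E i)} (hK : IsCompact K) {W : Set ((∀ i, E i) × (ℕ → ℝ))}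
    (hW : IsOpen W) (hKW : AA K ⊆ W) :
    ∃ (n : ℕ) (δ : ℝ), 0 < δ ∧ ∀ m ≥ n, ∀ x ∈ XS E, (∃ k ∈ K, ∀ i < m, ‖x.1 i - k i‖ < δ) →
      (∀ i < m, |x.2 i| < δ) → x ∈ W := by
  by_contra hcon
  push Not at hcon
  have hch : ∀ n : ℕ, ∃ (m : ℕ) (x : (∀ i, E i) × (ℕ → ℝ)) (k : ∀ i, E i), n ≤ m ∧ x ∈ XS E ∧ k ∈ K ∧
      (∀ i < m, ‖x.1 i - k i‖ < 1 / ((n : ℝ) + 1)) ∧ (∀ i < m, |x.2 i| < 1 / ((n : ℝ) + 1)) ∧ x ∉ W := by
    intro n
    obtain ⟨m, hm, x, hx, ⟨k, hk, hxk⟩, hx2, hxW⟩ := hcon n (1 / ((n : ℝ) + 1)) (by positivity)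
    exact ⟨m, x, k, hm, hx, hk, hxk, hx2, hxW⟩
  choose m x k hm hx hk hxk hx2 hxW using hch
  obtain ⟨⟨xi, ki⟩, hmem, φ, hφ, hlim⟩ := (xs_compact.prod hK).tendsto_subseq
    (x := fun n => (x n, k n)) (fun n => ⟨hx n, hk n⟩)
  have hx1 : Tendsto (fun n => x (φ n)) atTop (𝓝 xi) := (continuous_fst.tendsto _).comp hlim
  have hk1 : Tendsto (fun n => k (φ n)) atTop (𝓝 ki) := (continuous_snd.tendsto _).comp hlim
  have h0 : Tendsto (fun n => 1 / ((φ n : ℝ) + 1)) atTop (𝓝 0) :=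
    tendsto_one_div_add_atTop_nhds_zero_nat.comp hφ.tendsto_atTop
  have hev : ∀ i : ℕ, ∀ᶠ n in atTop, i < m (φ n) := by
    intro i
    filter_upwards [hφ.tendsto_atTop.eventually (eventually_gt_atTop i)] with n hn
    exact lt_of_lt_of_le hn (hm _)
  have e1 : ∀ i, xi.1 i = ki i := by
    intro i
    have ht : Tendsto (fun n => ‖(x (φ n)).1 i - k (φ n) i‖) atTop (𝓝 ‖xi.1 i - ki i‖) := by
      have hc1 : Tendsto (fun n => (x (φ n)).1 i) atTop (𝓝 (xi.1 i)) :=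
        (((continuous_apply i).comp continuous_fst).tendsto xi).comp hx1
      have hc2 : Tendsto (fun n => k (φ n) i) atTop (𝓝 (ki i)) :=
        ((continuous_apply i).tendsto ki).comp hk1
      exact (hc1.sub hc2).norm
    have hle : ‖xi.1 i - ki i‖ ≤ 0 := by
      apply le_of_tendsto_of_tendsto ht h0
      filter_upwards [hev i] with n hn
      exact (hxk _ i hn).le
    exact sub_eq_zero.mp (norm_le_zero_iff.mp hle)
  have e2 : ∀ i, xi.2 i = 0 := by
    intro i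
    have ht : Tendsto (fun n => |(x (φ n)).2 i|) atTop (𝓝 |xi.2 i|) := by
      have hc1 : Tendsto (fun n => (x (φ n)).2 i) atTop (𝓝 (xi.2 i)) :=
        (((continuous_apply i).comp continuous_snd).tendsto xi).comp hx1
      exact hc1.abs
    have hle : |xi.2 i| ≤ 0 := by
      apply le_of_tendsto_of_tendsto ht h0
      filter_upwards [hev i] with n hn
      exact (hx2 _ i hn).le
    exact abs_nonpos_iff.mp hle
  have hxiW : xi ∈ W := by
    apply hKW
    refine ⟨?_, funext e2⟩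
    have : xi.1 = ki := funext e1
    rw [this]
    exact hmem.2
  obtain ⟨n, hn⟩ := (hx1.eventually (hW.mem_nhds hxiW)).exists
  exact hxW _ hn

end Main
end Pool.KleeBing
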