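import Pool.Agent.Helper257.KleeBing.Defs
import Pool.Agent.Helper257.KleeBing.P_xs_compact
import Pool.Agent.Helper257.KleeBing.P_good_comp
import Pool.Agent.Helper257.KleeBing.P_shear
import Pool.Agent.Helper257.KleeBing.P_push
import Pool.Agent.Helper257.KleeBing.P_tube
import Pool.Agent.Helper257.KleeBing.P_embed
import Pool.Agent.Helper257.KleeBing.P_path_ext
import Pool.Agent.Helper257.KleeBing.P_steps
import Pool.Agent.Helper257.KleeBing.P_cutoff
import Pool.Agent.Helper257.KleeBing.P_shear_cut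

open Set Filter Topology Metric

namespace Pool.KleeBing


section Main
variable {E : ℕ → Type*} [∀ i, NormedAddCommGroup (E i)] [∀ i, NormedSpace ℝ (E i)]
  [∀ i, FiniteDimensional ℝ (E i)]


/-! TARGET: prove this theorem (add helper lemmas before it if you like; keep the statement) -/


omit [∀ i, NormedAddCommGroup (E i)] [∀ i, NormedSpace ℝ (E i)] [∀ i, FiniteDimensional ℝ (E i)] in
theorem klee_open_lt {X : Type*} [TopologicalSpace X] (m : ℕ) (p : ℕ → X → Prop)
    (h : ∀ i < m, IsOpen {x | p i x}) : IsOpen {x | ∀ i < m, p i x} := by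
  have : {x | ∀ i < m, p i x} = ⋂ i ∈ Set.Iio m, {x | p i x} := by
    ext x; simp
  rw [this]
  exact (Set.finite_Iio m).isOpen_biInter (fun i hi => h i hi)

omit [∀ i, NormedAddCommGroup (E i)] [∀ i, NormedSpace ℝ (E i)] [∀ i, FiniteDimensional ℝ (E i)] in
theorem klee_closed_lt {X : Type*} [TopologicalSpace X] (m : ℕ) (p : ℕ → X → Prop)
    (h : ∀ i < m, IsClosed {x | p i x}) : IsClosed {x | ∀ i < m, p i x} := by
  have : {x | ∀ i < m, p i x} = ⋂ i ∈ Set.Iio m, {x | p i x} := by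
    ext x; simp
  rw [this]
  exact isClosed_biInter (fun i hi => h i hi)

theorem klee_open_ex {X ι : Type*} [TopologicalSpace X] (A : Set ι) (p : ι → X → Prop)
    (h : ∀ i ∈ A, IsOpen {x | p i x}) : IsOpen {x | ∃ i ∈ A, p i x} := by
  have : {x | ∃ i ∈ A, p i x} = ⋃ i ∈ A, {x | p i x} := by
    ext x; simp
  rw [this]
  exact isOpen_biUnion (fun i hi => h i hi)

omit [∀ i, NormedSpace ℝ (E i)] [∀ i, FiniteDimensional ℝ (E i)] in
theorem klee_NN_lt {m : ℕ} {r : ℝ} {c : ∀ i, E i} (h : NN m c < r) : ∀ i < m, ‖c i‖ < r := by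
  intro i hi
  exact lt_of_le_of_lt (norm_le_pi_norm (fun i : Fin m => c i) ⟨i, hi⟩) h

omit [∀ i, NormedSpace ℝ (E i)] [∀ i, FiniteDimensional ℝ (E i)] in
theorem klee_NN_zero {m : ℕ} {c : ∀ i, E i} (h : ∀ i < m, c i = 0) : NN m c = 0 := by
  unfold NN
  have : (fun i : Fin m => c i) = 0 := by
    funext i
    exact h i i.2
  rw [this, norm_zero]

theorem klee {K : Set (∀ i, E i)} (hK : IsCompact K) (hne : K.Nonempty) (hcell : CellLike K)
    {W : Set ((∀ i, E i) × (ℕ → ℝ))} (hW : IsOpen W) (hKW : AA K ⊆ W) (n : ℕ) :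
    ∃ h : (∀ i, E i) × (ℕ → ℝ) → (∀ i, E i) × (ℕ → ℝ), Good W h ∧
      ∀ a ∈ AA K, ∀ b ∈ AA K, ∀ i < n, (h a).1 i = (h b).1 i ∧ (h a).2 i = (h b).2 i := by
  obtain ⟨n1, δ, hδ, htube⟩ := tube hK hW hKW
  set m := max n n1 with hm
  have htube' := htube m (le_max_right _ _)
  -- step 2
  obtain ⟨H, c0, hHc, hH0, hH1, hHU⟩ := hcell {c | ∃ k ∈ K, ∀ i < m, ‖c i - k i‖ < δ / 4}
    (klee_open_ex K (fun (k c : ∀ i, E i) => ∀ i < m, ‖c i - k i‖ < δ / 4) (fun k _ =>
      klee_open_lt m (fun i (c : ∀ i, E i) => ‖c i - k i‖ < δ / 4) (fun i _ =>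
        isOpen_lt (((continuous_apply i).sub continuous_const).norm) continuous_const)))
    (fun c hc => ⟨c, hc, fun i _ => by rw [sub_self, norm_zero]; positivity⟩)
  set r : ℝ := min (δ / 4) (1 / 4) with hr
  have hr0 : 0 < r := lt_min (by positivity) (by norm_num)
  have hrδ : r ≤ δ / 4 := min_le_left _ _
  have hr4 : r ≤ 1 / 4 := min_le_right _ _
  obtain ⟨N, hN0, hN⟩ := steps hK H hHc m (show 0 < r / 4 by positivity)
  have hNpos : (0 : ℝ) < N := by exact_mod_cast hN0
  obtain ⟨e, hec, hei, heb⟩ := embed (E := E)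
  obtain ⟨P, hPc, hP⟩ := path_ext hK H hHc e hec hei
  -- tail
  set tail : (ℕ → ℝ) → (ℕ → ℝ) := fun s i => s (m + i) with htail
  have htailc : Continuous tail := continuous_pi fun i => continuous_apply (m + i)
  set pj : ℕ → (ℕ → ℝ) → ∀ i, E i := fun j s => P (tail s, (j : ℝ) / N) with hpj
  have hpjc : ∀ j, Continuous (pj j) := fun j => hPc.comp (htailc.prodMk continuous_const)
  set T : Set (ℕ → ℝ) := {s | tail s ∈ e '' K} ∩ {s | ∀ i < m, s i = 0} with hT
  have hTc : IsClosed T := by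
    apply IsClosed.inter
    · exact ((hK.image hec).isClosed).preimage htailc
    · exact klee_closed_lt m (fun i (s : ℕ → ℝ) => s i = 0) (fun i _ =>
        isClosed_eq (continuous_apply i) continuous_const)
  set O : Set (ℕ → ℝ) := {s | ∀ i < m, |s i| < δ} ∩
    ({s | ∀ j < N, ∃ t ∈ Icc (0 : ℝ) 1, ∃ k ∈ K, ∀ i < m, ‖pj j s i - H (t, k) i‖ < r} ∩
      {s | ∀ j < N, ∀ i < m, ‖pj (j + 1) s i - pj j s i‖ < r}) with hO
  have hOo : IsOpen O := by
    apply IsOpen.inter
    · exact klee_open_lt m (fun i (s : ℕ → ℝ) => |s i| < δ) (fun i _ =>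
        isOpen_lt ((continuous_apply i).abs) continuous_const)
    · apply IsOpen.inter
      · apply klee_open_lt N (fun j (s : ℕ → ℝ) => ∃ t ∈ Icc (0 : ℝ) 1, ∃ k ∈ K, ∀ i < m,
          ‖pj j s i - H (t, k) i‖ < r)
        intro j _
        apply klee_open_ex (Icc (0 : ℝ) 1) (fun t (s : ℕ → ℝ) => ∃ k ∈ K, ∀ i < m,
          ‖pj j s i - H (t, k) i‖ < r)
        intro t _
        apply klee_open_ex K (fun k (s : ℕ → ℝ) => ∀ i < m, ‖pj j s i - H (t, k) i‖ < r)
        intro k _
        apply klee_open_lt m (fun i (s : ℕ → ℝ) => ‖pj j s i - H (t, k) i‖ < r)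
        intro i _
        exact isOpen_lt ((((continuous_apply i).comp (hpjc j)).sub continuous_const).norm) continuous_const
      · apply klee_open_lt N (fun j (s : ℕ → ℝ) => ∀ i < m, ‖pj (j + 1) s i - pj j s i‖ < r)
        intro j _
        apply klee_open_lt m (fun i (s : ℕ → ℝ) => ‖pj (j + 1) s i - pj j s i‖ < r)
        intro i _
        exact isOpen_lt ((((continuous_apply i).comp (hpjc (j + 1))).sub
          ((continuous_apply i).comp (hpjc j))).norm) continuous_const
  have hfrac : ∀ j ≤ N, (j : ℝ) / N ∈ Icc (0 : ℝ) 1 := by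
    intro j hj
    constructor
    · positivity
    · rw [div_le_one hNpos]
      exact_mod_cast hj
  have hpjT : ∀ c ∈ K, ∀ s, tail s = e c → ∀ j ≤ N, pj j s = H ((j : ℝ) / N, c) := by
    intro c hc s hs j hj
    simp only [hpj]
    rw [hs]
    exact hP _ (hfrac j hj) c hc
  have hTO : T ⊆ O := by
    rintro s ⟨⟨c, hc, hcs⟩, hs0⟩
    refine ⟨?_, ?_, ?_⟩
    · intro i hi
      rw [hs0 i hi, abs_zero]
      exact hδ
    · intro j hj
      refine ⟨(j : ℝ) / N, hfrac j hj.le, c, hc, fun i _ => ?_⟩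
      rw [hpjT c hc s hcs.symm j hj.le, sub_self, norm_zero]
      exact hr0
    · intro j hj i hi
      rw [hpjT c hc s hcs.symm j hj.le, hpjT c hc s hcs.symm (j + 1) hj]
      have := hN j hj c hc i hi
      push_cast
      linarith
  obtain ⟨l, hlc, hl01, hlT, hlO⟩ := cutoff hTc hOo hTO
  have hlO' : ∀ s, l s ≠ 0 → s ∈ O := by
    intro s hs
    by_contra hc
    exact hs (hlO s hc)
  obtain ⟨χ, hχc, hχ01, hχdep, hχ1, hχ0⟩ := shear_cut hK m hδ
  set a : (∀ i, E i) × (ℕ → ℝ) → ℕ → ℝ := fun x i => χ x * e x.1 (i - m) with ha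
  have hac : Continuous a := by
    apply continuous_pi
    intro i
    exact hχc.mul ((continuous_apply (i - m)).comp (hec.comp continuous_fst))
  have hab : ∀ x i, |a x i| ≤ 1 / 2 := by
    intro x i
    simp only [ha]
    rw [abs_mul, abs_of_nonneg (hχ01 x).1]
    calc χ x * |e x.1 (i - m)| ≤ 1 * (1 / 2) :=
          mul_le_mul (hχ01 x).2 (heb _ _) (abs_nonneg _) (by norm_num)
      _ = 1 / 2 := one_mul _
  have hadep : ∀ (c : ∀ i, E i) (s s' : ℕ → ℝ), (∀ i < m, s i = s' i) → a (c, s) = a (c, s') := by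
    intro c s s' hss
    funext i
    simp only [ha]
    rw [hχdep c s s' hss]
  obtain ⟨hshc, hshb⟩ := shear m a hac hab hadep
  have hshear : Good W (shearMap m a) := by
    refine ⟨hshc, hshb, ?_⟩
    intro x hx hxW
    have hχx : χ x = 0 := by
      by_contra hc
      obtain ⟨h1, h2⟩ := hχ0 x hc
      exact hxW (htube' x hx h1 h2)
    have hax : ∀ i, a x i = 0 := fun i => by simp only [ha, hχx, zero_mul]
    apply Prod.ext
    · rfl
    · funext i
      show (if i < m then x.2 i else (x.2 i + a x i) / (1 + a x i * x.2 i)) = x.2 i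
      rw [hax i]
      simp
  have hpush : ∀ j < N, Good W (pushMap m r (pj j) (pj (j + 1)) l) := by
    intro j hj
    obtain ⟨h1, h2⟩ := push m r hr0 (pj j) (pj (j + 1)) l (hpjc j) (hpjc (j + 1)) hlc hl01 (by
      intro s hs i hi
      obtain ⟨_, hs2, hs3⟩ := hlO' s hs
      obtain ⟨t, ht, k, hk, htk⟩ := hs2 j hj
      refine ⟨?_, hs3 j hj i hi⟩
      have e1 := htk i hi
      have e2 := (hHU t ht k hk).2 i
      have e3 : ‖pj j s i‖ ≤ ‖pj j s i - H (t, k) i‖ + ‖H (t, k) i‖ := by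
        have := norm_add_le (pj j s i - H (t, k) i) (H (t, k) i)
        rwa [sub_add_cancel] at this
      linarith)
    refine ⟨h1, h2, ?_⟩
    intro x hx hxW
    have hcoef : l x.2 * max 0 (1 - NN m (x.1 - pj j x.2) / r) = 0 := by
      by_contra hc
      have hl0 : l x.2 ≠ 0 := fun h => hc (by rw [h, zero_mul])
      have hmax : max 0 (1 - NN m (x.1 - pj j x.2) / r) ≠ 0 := fun h => hc (by rw [h, mul_zero])
      have hNN : NN m (x.1 - pj j x.2) < r := by
        by_contra hge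
        push Not at hge
        apply hmax
        apply max_eq_left
        have : 1 ≤ NN m (x.1 - pj j x.2) / r := (one_le_div hr0).2 hge
        linarith
      obtain ⟨hs1, hs2, _⟩ := hlO' x.2 hl0
      obtain ⟨t, ht, k, hk, htk⟩ := hs2 j hj
      obtain ⟨k', hk', hkk⟩ := (hHU t ht k hk).1
      apply hxW
      apply htube' x hx _ hs1
      refine ⟨k', hk', fun i hi => ?_⟩
      have e1 : ‖x.1 i - pj j x.2 i‖ < r := klee_NN_lt hNN i hi
      have e2 := htk i hi
      have e3 := hkk i hi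
      have e4 : x.1 i - k' i = (x.1 i - pj j x.2 i) + (pj j x.2 i - H (t, k) i) +
          (H (t, k) i - k' i) := by abel
      rw [e4]
      calc ‖(x.1 i - pj j x.2 i) + (pj j x.2 i - H (t, k) i) + (H (t, k) i - k' i)‖
          ≤ ‖x.1 i - pj j x.2 i‖ + ‖pj j x.2 i - H (t, k) i‖ + ‖H (t, k) i - k' i‖ :=
            norm_add₃_le
        _ < δ := by linarith
    apply Prod.ext
    · funext i
      show (if i < m then x.1 i + (l x.2 * max 0 (1 - NN m (x.1 - pj j x.2) / r)) •
        (pj (j + 1) x.2 i - pj j x.2 i) else x.1 i) = x.1 i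
      rw [hcoef, zero_smul, add_zero]
      simp
    · rfl
  -- induction
  set sc : (∀ i, E i) → ℕ → ℝ := fun c i => if i < m then 0 else e c (i - m) with hsc
  have hsc_tail : ∀ c, tail (sc c) = e c := by
    intro c
    funext i
    simp only [htail, hsc]
    rw [if_neg (by omega), Nat.add_sub_cancel_left]
  have hsc_T : ∀ c ∈ K, sc c ∈ T := by
    intro c hc
    refine ⟨⟨c, hc, (hsc_tail c).symm⟩, ?_⟩
    intro i hi
    simp only [hsc, if_pos hi]
  have hind : ∀ j ≤ N, ∃ h : (∀ i, E i) × (ℕ → ℝ) → (∀ i, E i) × (ℕ → ℝ), Good W h ∧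
      ∀ c ∈ K, (h (c, 0)).2 = sc c ∧ ∀ i < m, (h (c, 0)).1 i = H ((j : ℝ) / N, c) i := by
    intro j
    induction j with
    | zero =>
      intro _
      refine ⟨shearMap m a, hshear, fun c hc => ⟨?_, ?_⟩⟩
      · have hχ : χ (c, 0) = 1 := hχ1 (c, 0) hc (fun i _ => rfl)
        funext i
        show (if i < m then (0 : ℝ) else (0 + a (c, 0) i) / (1 + a (c, 0) i * 0)) =
          if i < m then 0 else e c (i - m)
        have : a (c, 0) i = e c (i - m) := by
          simp only [ha, hχ, one_mul]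
        rw [this]
        simp
      · intro i _
        show c i = H (((0 : ℕ) : ℝ) / N, c) i
        have : ((0 : ℕ) : ℝ) / (N : ℝ) = 0 := by simp
        rw [this, hH0 c hc]
    | succ j ih =>
      intro hj
      obtain ⟨h, hg, hh⟩ := ih (by omega)
      have hjN : j < N := hj
      refine ⟨pushMap m r (pj j) (pj (j + 1)) l ∘ h, good_comp hg (hpush j hjN), fun c hc => ?_⟩
      obtain ⟨h2, h1⟩ := hh c hc
      have hl1 : l (h (c, 0)).2 = 1 := by
        rw [h2]; exact hlT _ (hsc_T c hc)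
      have hp1 : pj j (h (c, 0)).2 = H ((j : ℝ) / N, c) := by
        rw [h2]
        exact hpjT c hc _ (hsc_tail c) j hjN.le
      have hp2 : pj (j + 1) (h (c, 0)).2 = H (((j + 1 : ℕ) : ℝ) / N, c) := by
        rw [h2]
        exact hpjT c hc _ (hsc_tail c) (j + 1) hj
      have hNN : NN m ((h (c, 0)).1 - pj j (h (c, 0)).2) = 0 := by
        apply klee_NN_zero
        intro i hi
        rw [Pi.sub_apply, hp1, h1 i hi, sub_self]
      refine ⟨h2, fun i hi => ?_⟩
      show (if i < m then (h (c, 0)).1 i + (l (h (c, 0)).2 *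
        max 0 (1 - NN m ((h (c, 0)).1 - pj j (h (c, 0)).2) / r)) •
        (pj (j + 1) (h (c, 0)).2 i - pj j (h (c, 0)).2 i) else (h (c, 0)).1 i) = _
      rw [if_pos hi, hNN, hl1, hp1, hp2, h1 i hi, zero_div, sub_zero, one_mul,
        max_eq_right (zero_le_one), one_smul]
      abel
  obtain ⟨h, hg, hh⟩ := hind N le_rfl
  refine ⟨h, hg, ?_⟩
  rintro ⟨c, s⟩ ⟨hc, hs⟩ ⟨c', s'⟩ ⟨hc', hs'⟩ i hi
  simp only at hc hs hc' hs'
  subst hs hs'
  have him : i < m := lt_of_lt_of_le hi (le_max_left _ _)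
  obtain ⟨h2, h1⟩ := hh c hc
  obtain ⟨h2', h1'⟩ := hh c' hc'
  have hNN1 : (N : ℝ) / N = 1 := div_self hNpos.ne'
  constructor
  · rw [h1 i him, h1' i him, hNN1, hH1 c hc, hH1 c' hc']
  · rw [h2, h2']
    simp only [hsc, if_pos him]

end Main
end Pool.KleeBing
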