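import Pool.Agent.Helper257.KleeBing.Defs
import Pool.Agent.Helper257.KleeBing.P_bing_limit
import Pool.Agent.Helper257.KleeBing.P_xs_compact
import Pool.Agent.Helper257.KleeBing.P_good_homeo
import Pool.Agent.Helper257.KleeBing.P_klee
import Pool.Agent.Helper257.KleeBing.P_coords

open Set Filter Topology Metric

namespace Pool.KleeBing


section Main
variable {E : ℕ → Type*} [∀ i, NormedAddCommGroup (E i)] [∀ i, NormedSpace ℝ (E i)]
  [∀ i, FiniteDimensional ℝ (E i)]


/-! TARGET: prove this theorem (add helper lemmas before it if you like; keep the statement) -/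


theorem main {K : Set (∀ i, E i)} (hK : IsCompact K) (hne : K.Nonempty) (hcell : CellLike K) :
    ∃ f : ↥(XS E) → ↥(XS E), Continuous f ∧ Function.Surjective f ∧
      ∀ x y, f x = f y ↔ x = y ∨ (x.1 ∈ AA K ∧ y.1 ∈ AA K) := by
  have hprop : ∀ i, ProperSpace (E i) := fun i => FiniteDimensional.proper_real (E i)
  have hsc : SecondCountableTopology ((∀ i, E i) × (ℕ → ℝ)) := inferInstance
  have hsc2 : SecondCountableTopology ↥(XS E) := inferInstance
  have hmet : TopologicalSpace.MetrizableSpace ↥(XS E) :=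
    TopologicalSpace.metrizableSpace_of_t3_secondCountable _
  letI : MetricSpace ↥(XS E) := TopologicalSpace.metrizableSpaceMetric ↥(XS E)
  have hcomp : CompactSpace ↥(XS E) := isCompact_iff_compactSpace.1 (xs_compact (E := E))
  have hKnorm : ∀ c ∈ K, ∀ i, ‖c i‖ ≤ 1 := by
    intro c hc i
    obtain ⟨H, c0, _, h0, _, h2⟩ := hcell univ isOpen_univ (subset_univ _)
    have := (h2 0 (by simp) c hc).2 i
    rwa [h0 c hc] at this
  have hAAX : ∀ p ∈ AA K, p ∈ XS E := by
    rintro p ⟨h1, h2⟩
    refine ⟨fun i => (hKnorm _ h1 i).trans (by norm_num), fun i => ?_⟩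
    rw [h2]
    simp
  set A : Set ↥(XS E) := {x | x.1 ∈ AA K} with hA
  have hAcl : IsClosed A := by
    have h1 : IsClosed (AA K) :=
      (hK.isClosed.preimage continuous_fst).inter (isClosed_singleton.preimage continuous_snd)
    exact h1.preimage continuous_subtype_val
  have hAne : A.Nonempty := by
    obtain ⟨c, hc⟩ := hne
    exact ⟨⟨(c, 0), hAAX _ ⟨hc, rfl⟩⟩, ⟨hc, rfl⟩⟩
  have key := bing_limit (X := ↥(XS E)) hAcl hAne ?_
  · exact key
  · intro ε hε
    have hWo : IsOpen {x : ↥(XS E) | infDist x A < ε} :=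
      isOpen_lt (continuous_infDist_pt A) continuous_const
    obtain ⟨W, hW, hWeq⟩ := isOpen_induced_iff.1 hWo
    have hKW : AA K ⊆ W := by
      intro p hp
      have h1 : (⟨p, hAAX p hp⟩ : ↥(XS E)) ∈ {x : ↥(XS E) | infDist x A < ε} := by
        have h2 : (⟨p, hAAX p hp⟩ : ↥(XS E)) ∈ A := hp
        show infDist _ A < ε
        rw [infDist_zero_of_mem h2]
        exact hε
      rw [← hWeq] at h1
      exact h1
    have hVo : IsOpen {z : ↥(XS E) × ↥(XS E) | dist z.1 z.2 < ε} :=
      isOpen_lt continuous_dist continuous_const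
    obtain ⟨n, hn⟩ := coords hVo (fun x => by
      show dist x x < ε
      rw [dist_self]
      exact hε)
    obtain ⟨h, hgood, hagree⟩ := klee hK hne hcell hW hKW n
    obtain ⟨g, hg⟩ := good_homeo hgood
    refine ⟨g, ?_, ?_⟩
    · intro x hx
      apply Subtype.ext
      rw [hg x]
      apply hgood.off _ x.2
      intro hxW
      have h1 : x ∈ {x : ↥(XS E) | infDist x A < ε} := by
        rw [← hWeq]
        exact hxW
      exact absurd h1 (not_lt.2 hx)
    · intro a ha b hb
      have h1 := hn (g a) (g b) (by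
        intro i hi
        rw [hg a, hg b]
        exact hagree _ ha _ hb i hi)
      exact h1


end Main
end Pool.KleeBing
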