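import Pool.Agent.Helper257.KleeBing.Defs
import Pool.Agent.Helper257.KleeBing.P_xs_compact
import Pool.Agent.Helper257.KleeBing.P_main
import Pool.Agent.Helper257.KleeBing.P_cube

open Set Filter Topology Metric

namespace Pool.KleeBing


section Main
variable {E : ℕ → Type*} [∀ i, NormedAddCommGroup (E i)] [∀ i, NormedSpace ℝ (E i)]
  [∀ i, FiniteDimensional ℝ (E i)]


/-! TARGET: prove this theorem (add helper lemmas before it if you like; keep the statement) -/


/-- Any Hausdorff space obtained from the cube by collapsing exactly `K × {0}` is the Hilbert cube. -/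
theorem quot {K : Set (∀ i, E i)} (hK : IsCompact K) (hne : K.Nonempty) (hcell : CellLike K)
    {Y : Type*} [TopologicalSpace Y] [T2Space Y] (q : ↥(XS E) → Y) (hq : Continuous q)
    (hs : Function.Surjective q)
    (hf : ∀ x y, q x = q y ↔ x = y ∨ (x.1 ∈ AA K ∧ y.1 ∈ AA K)) :
    Nonempty (Y ≃ₜ (ℕ → unitInterval)) := by
  obtain ⟨f, hfc, hfs, hff⟩ := main hK hne hcell
  obtain ⟨cb⟩ := cube (E := E)
  have : CompactSpace ↥(XS E) := isCompact_iff_compactSpace.1 xs_compact
  have : CompactSpace Y := ⟨by
    rw [← hs.range_eq]; exact isCompact_range hq⟩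
  have hquot : IsQuotientMap q := hq.isClosedMap.isQuotientMap hq hs
  choose s hsq using hs
  have hfib : ∀ x y, f x = f y ↔ q x = q y := fun x y => (hff x y).trans (hf x y).symm
  have hcomp : (fun y => f (s y)) ∘ q = f := by
    funext x
    exact (hfib _ _).2 (hsq (q x))
  have hc : Continuous (fun y => f (s y)) := by
    rw [hquot.continuous_iff, hcomp]; exact hfc
  have hb : Function.Bijective (fun y => f (s y)) := by
    constructor
    · intro y y' h
      have h1 := (hfib _ _).1 h
      rw [hsq, hsq] at h1
      exact h1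
    · intro z
      obtain ⟨x, hx⟩ := hfs z
      exact ⟨q x, (congrFun hcomp x).trans hx⟩
  let e : Y ≃ ↥(XS E) := Equiv.ofBijective _ hb
  have he : Continuous e := hc
  exact ⟨(he.homeoOfEquivCompactToT2).trans cb⟩

end Main
end Pool.KleeBing
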