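import Mathlib

/-! Klee trick + Bing shrinking for cell-like compacta in infinite products of balls. -/

open Set Filter Topology Metric

namespace Pool.KleeBing

variable {E : ℕ → Type*} [∀ i, NormedAddCommGroup (E i)]

/-- product of the balls of radius `2` and of countably many intervals `[-1,1]` -/
def XS (E : ℕ → Type*) [∀ i, NormedAddCommGroup (E i)] : Set ((∀ i, E i) × (ℕ → ℝ)) :=
  {p | (∀ i, ‖p.1 i‖ ≤ 2) ∧ ∀ i, |p.2 i| ≤ 1}

/-- `K × {0}` -/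
def AA (K : Set (∀ i, E i)) : Set ((∀ i, E i) × (ℕ → ℝ)) := {p | p.1 ∈ K ∧ p.2 = 0}

/-- `K` is cell-like inside the product of the unit balls. -/
def CellLike (K : Set (∀ i, E i)) : Prop :=
  ∀ U : Set (∀ i, E i), IsOpen U → K ⊆ U → ∃ (H : ℝ × (∀ i, E i) → (∀ i, E i)) (c0 : ∀ i, E i),
    ContinuousOn H (Icc 0 1 ×ˢ K) ∧ (∀ c ∈ K, H (0, c) = c) ∧ (∀ c ∈ K, H (1, c) = c0) ∧
    ∀ t ∈ Icc (0 : ℝ) 1, ∀ c ∈ K, H (t, c) ∈ U ∧ ∀ i, ‖H (t, c) i‖ ≤ 1

/-- a continuous bijection of the cube `XS E` which is the identity off `W` -/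
structure Good (W : Set ((∀ i, E i) × (ℕ → ℝ)))
    (h : (∀ i, E i) × (ℕ → ℝ) → (∀ i, E i) × (ℕ → ℝ)) : Prop where
  cont : ContinuousOn h (XS E)
  bij : BijOn h (XS E) (XS E)
  off : ∀ x ∈ XS E, x ∉ W → h x = x

/-- sup norm of the first `n` coordinates -/
noncomputable def NN (n : ℕ) (c : ∀ i, E i) : ℝ := ‖(fun i : Fin n => c i)‖

/-- the shear in the interval coordinates `i ≥ n` -/
noncomputable def shearMap (n : ℕ) (a : (∀ i, E i) × (ℕ → ℝ) → ℕ → ℝ)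
    (x : (∀ i, E i) × (ℕ → ℝ)) : (∀ i, E i) × (ℕ → ℝ) :=
  (x.1, fun i => if i < n then x.2 i else (x.2 i + a x i) / (1 + a x i * x.2 i))

/-- the push of `p s` to `q s` in the first `n` ball coordinates, with support of radius `r` -/
noncomputable def pushMap [∀ i, NormedSpace ℝ (E i)] (n : ℕ) (r : ℝ) (p q : (ℕ → ℝ) → ∀ i, E i)
    (l : (ℕ → ℝ) → ℝ) (x : (∀ i, E i) × (ℕ → ℝ)) : (∀ i, E i) × (ℕ → ℝ) :=
  (fun i => if i < n then
      x.1 i + (l x.2 * max 0 (1 - NN n (x.1 - p x.2) / r)) • (q x.2 i - p x.2 i)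
    else x.1 i, x.2)

end Pool.KleeBing
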