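import Pool.Agent.Helper257.KleeBing.Defs

open Set Filter Topology Metric

namespace Pool.KleeBing


section Main
variable {E : ℕ → Type*} [∀ i, NormedAddCommGroup (E i)] [∀ i, NormedSpace ℝ (E i)]
  [∀ i, FiniteDimensional ℝ (E i)]

/-! TARGET: prove this theorem (add helper lemmas before it if you like; keep the statement) -/


/-- cutoff for the shear: depends only on `c` and on the interval coordinates `< n`. -/
theorem shear_cut {K : Set (∀ i, E i)} (hK : IsCompact K) (n : ℕ) {δ : ℝ} (hδ : 0 < δ) :
    ∃ χ : (∀ i, E i) × (ℕ → ℝ) → ℝ, Continuous χ ∧ (∀ x, 0 ≤ χ x ∧ χ x ≤ 1) ∧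
      (∀ (c : ∀ i, E i) (s s' : ℕ → ℝ), (∀ i < n, s i = s' i) → χ (c, s) = χ (c, s')) ∧
      (∀ x, x.1 ∈ K → (∀ i < n, x.2 i = 0) → χ x = 1) ∧
      ∀ x, χ x ≠ 0 → (∃ k ∈ K, ∀ i < n, ‖x.1 i - k i‖ < δ) ∧ ∀ i < n, |x.2 i| < δ := by
  classical
  rcases K.eq_empty_or_nonempty with hKe | hKn
  · refine ⟨fun _ => 0, continuous_const, fun x => ⟨le_rfl, zero_le_one⟩, fun _ _ _ _ => rfl,
      ?_, ?_⟩
    · intro x hx
      rw [hKe] at hx
      exact absurd hx (Set.notMem_empty _)
    · intro x hx
      exact absurd rfl hx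
  · set π : (∀ i, E i) → (∀ i : Fin n, E i) := fun c i => c i with hπ
    have hπc : Continuous π := continuous_pi fun i => continuous_apply (i : ℕ)
    set K' : Set (∀ i : Fin n, E i) := π '' K with hK'
    have hK'n : K'.Nonempty := hKn.image π
    set τ : (ℕ → ℝ) → (Fin n → ℝ) := fun s i => s i with hτ
    have hτc : Continuous τ := continuous_pi fun i => continuous_apply (i : ℕ)
    set D : (∀ i, E i) × (ℕ → ℝ) → ℝ := fun x => max (infDist (π x.1) K') ‖τ x.2‖ with hD
    have hDc : Continuous D :=
      ((Metric.continuous_infDist_pt K').comp (hπc.comp continuous_fst)).max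
        ((hτc.comp continuous_snd).norm)
    have hD0 : ∀ x, 0 ≤ D x := fun x => le_max_of_le_left Metric.infDist_nonneg
    refine ⟨fun x => max 0 (1 - D x / δ), ?_, ?_, ?_, ?_, ?_⟩
    · exact continuous_const.max (continuous_const.sub (hDc.div_const δ))
    · intro x
      refine ⟨le_max_left _ _, max_le zero_le_one ?_⟩
      have := div_nonneg (hD0 x) hδ.le
      linarith
    · intro c s s' hs
      have h1 : τ s = τ s' := by
        funext i
        exact hs i i.2
      simp only [hD]
      rw [h1]
    · intro x hx hx2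
      have h1 : infDist (π x.1) K' = 0 := Metric.infDist_zero_of_mem (Set.mem_image_of_mem π hx)
      have h2 : τ x.2 = 0 := by
        funext i
        exact hx2 i i.2
      simp only [hD]
      rw [h1, h2, norm_zero, max_self, zero_div, sub_zero]
      exact max_eq_right zero_le_one
    · intro x hx
      have hlt : D x < δ := by
        by_contra hcon
        push Not at hcon
        apply hx
        apply max_eq_left
        have := (one_le_div hδ).mpr hcon
        linarith
      have h1 : infDist (π x.1) K' < δ := lt_of_le_of_lt (le_max_left _ _) hlt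
      have h2 : ‖τ x.2‖ < δ := lt_of_le_of_lt (le_max_right _ _) hlt
      refine ⟨?_, ?_⟩
      · obtain ⟨k', ⟨k, hk, rfl⟩, hdist⟩ := (Metric.infDist_lt_iff hK'n).mp h1
        refine ⟨k, hk, fun i hi => ?_⟩
        rw [dist_eq_norm] at hdist
        exact lt_of_le_of_lt (norm_le_pi_norm (π x.1 - π k) ⟨i, hi⟩) hdist
      · intro i hi
        have h3 := norm_le_pi_norm (τ x.2) ⟨i, hi⟩
        rw [Real.norm_eq_abs] at h3
        exact lt_of_le_of_lt h3 h2

end Main
end Pool.KleeBing
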